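import Mathlib

/-!
# Project BF: the number of the pairs of parallel vectors in a square
-/

set_option autoImplicit false

namespace Pool.Agent.U708.BF

open Finset

/-- the vectors of the square which are parallel to `(x, y)` -/
lemma par_count (M : ℕ) (x y : ℤ) (hx : x ≠ 0) (hxM : x.natAbs ≤ M) :
    ((((Icc (-(M : ℤ)) M) ×ˢ (Icc (-(M : ℤ)) M)).filter (fun P : ℤ × ℤ => x * P.2 = P.1 * y)).card : ℝ) ≤
      3 * M * ((x.natAbs.gcd y.natAbs : ℕ) / (x.natAbs : ℝ)) := by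
  classical
  have hg : 0 < Int.gcd x y := Int.gcd_pos_of_ne_zero_left _ hx
  obtain ⟨x0, y0, hcop, hx0, hy0⟩ := Int.exists_gcd_one hg
  set g := Int.gcd x y with hgdef
  have hx00 : x0 ≠ 0 := by
    rintro rfl
    simp at hx0
    exact hx hx0
  have hgz : (g : ℤ) ≠ 0 := by omega
  set q := M / x0.natAbs with hq
  have hsub : ((Icc (-(M : ℤ)) M) ×ˢ (Icc (-(M : ℤ)) M)).filter (fun P : ℤ × ℤ => x * P.2 = P.1 * y) ⊆
      (Icc (-(q : ℤ)) q).image (fun k => (k * x0, k * y0)) := by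
    intro P hP
    rw [mem_filter, mem_product, mem_Icc, mem_Icc] at hP
    obtain ⟨⟨⟨h1, h2⟩, _⟩, h3⟩ := hP
    have h4 : x0 * P.2 = P.1 * y0 := by
      have h5 : (g : ℤ) * (x0 * P.2) = g * (P.1 * y0) := by
        calc (g : ℤ) * (x0 * P.2) = (x0 * g) * P.2 := by ring
          _ = x * P.2 := by rw [← hx0]
          _ = P.1 * y := h3
          _ = P.1 * (y0 * g) := by rw [← hy0]
          _ = _ := by ring
      exact mul_left_cancel₀ hgz h5
    have h5 : x0 ∣ P.1 * y0 := ⟨P.2, h4.symm⟩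
    have h6 : x0 ∣ P.1 := (Int.isCoprime_iff_gcd_eq_one.2 hcop).dvd_of_dvd_mul_right h5
    obtain ⟨k, hk⟩ := h6
    have h7 : P.2 = k * y0 := by
      rw [hk] at h4
      have : x0 * P.2 = x0 * (k * y0) := by rw [h4]; ring
      exact mul_left_cancel₀ hx00 this
    rw [mem_image]
    refine ⟨k, ?_, ?_⟩
    · have h8 : k.natAbs * x0.natAbs ≤ M := by
        rw [← Int.natAbs_mul, mul_comm k x0, ← hk]
        omega
      have h9 : k.natAbs ≤ q := by
        rw [hq, Nat.le_div_iff_mul_le (by omega)]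
        exact h8
      rw [mem_Icc]
      omega
    · rw [Prod.ext_iff]
      exact ⟨by simp only; rw [hk]; ring, h7.symm⟩
  have h1 := (card_le_card hsub).trans card_image_le
  rw [Int.card_Icc] at h1
  have h2 : ((((Icc (-(M : ℤ)) M) ×ˢ (Icc (-(M : ℤ)) M)).filter (fun P : ℤ × ℤ => x * P.2 = P.1 * y)).card) ≤ 2 * q + 1 := by
    omega
  have hxx : x.natAbs = x0.natAbs * g := by rw [hx0, Int.natAbs_mul, Int.natAbs_natCast]
  have hx0M : x0.natAbs ≤ M := by
    refine le_trans ?_ hxM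
    rw [hxx]
    exact Nat.le_mul_of_pos_right _ hg
  have hx0p : (0 : ℝ) < (x0.natAbs : ℝ) := by
    have : 0 < x0.natAbs := by omega
    exact_mod_cast this
  have hgp : (0 : ℝ) < (g : ℝ) := by exact_mod_cast hg
  have h3 : (q : ℝ) ≤ M / x0.natAbs := by rw [hq]; exact Nat.cast_div_le
  have h4 : (1 : ℝ) ≤ M / x0.natAbs := by
    rw [le_div_iff₀ hx0p, one_mul]; exact_mod_cast hx0M
  have h5 : ((x.natAbs.gcd y.natAbs : ℕ) : ℝ) / (x.natAbs : ℝ) = 1 / x0.natAbs := by
    have : x.natAbs.gcd y.natAbs = g := by rw [hgdef]; rfl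
    rw [this, hxx]
    push_cast
    field_simp
  rw [h5]
  have h6 : ((((Icc (-(M : ℤ)) M) ×ˢ (Icc (-(M : ℤ)) M)).filter (fun P : ℤ × ℤ => x * P.2 = P.1 * y)).card : ℝ) ≤
      2 * q + 1 := by exact_mod_cast h2
  have h7 : 3 * (M : ℝ) * (1 / x0.natAbs) = 3 * (M / x0.natAbs) := by ring
  rw [h7]
  linarith

lemma natAbs_sum (M : ℕ) (f : ℕ → ℝ) (hf : ∀ n, 0 ≤ f n) :
    ∑ x ∈ Icc (-(M : ℤ)) M, f x.natAbs ≤ 2 * ∑ n ∈ range (M + 1), f n := by
  classical
  have h1 : ∀ x ∈ Icc (-(M : ℤ)) M, x.natAbs ∈ range (M + 1) := by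
    intro x hx
    rw [mem_Icc] at hx
    rw [mem_range]
    omega
  rw [← sum_fiberwise_of_maps_to h1, mul_sum]
  refine sum_le_sum fun n _ => ?_
  have h2 : ∀ x ∈ (Icc (-(M : ℤ)) M).filter (fun x => x.natAbs = n), f x.natAbs = f n := by
    intro x hx
    rw [(mem_filter.1 hx).2]
  rw [sum_congr rfl h2, sum_const, nsmul_eq_mul]
  apply mul_le_mul_of_nonneg_right _ (hf n)
  have h3 : (Icc (-(M : ℤ)) M).filter (fun x => x.natAbs = n) ⊆ {(n : ℤ), -(n : ℤ)} := by
    intro x hx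
    have := (mem_filter.1 hx).2
    rw [mem_insert, mem_singleton]
    omega
  have h4 := (card_le_card h3).trans card_le_two
  exact_mod_cast h4

lemma gcd_sum (M : ℕ) : ∑ x ∈ Icc 1 M, ∑ y ∈ range (M + 1), ((Nat.gcd x y : ℕ) / (x : ℝ)) ≤
    2 * M * (1 + Real.log M) ^ 2 := by
  classical
  have hharm : ∀ n ≤ M, ∑ z ∈ Icc 1 n, (1 : ℝ) / z ≤ 1 + Real.log M := by
    intro n hn
    have h1 := harmonic_le_one_add_log n
    rw [harmonic_eq_sum_Icc] at h1
    push_cast at h1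
    have h2 : ∑ z ∈ Icc 1 n, (1 : ℝ) / z = ∑ z ∈ Icc 1 n, ((z : ℝ))⁻¹ := sum_congr rfl fun z _ => one_div _
    rw [h2]
    refine h1.trans ?_
    rcases Nat.eq_zero_or_pos n with h0 | h0
    · subst h0
      simp
      exact Real.log_natCast_nonneg M
    · have : Real.log n ≤ Real.log M := Real.log_le_log (by exact_mod_cast h0) (by exact_mod_cast hn)
      linarith
  have hl0 : 0 ≤ 1 + Real.log M := by have := Real.log_natCast_nonneg M; linarith
  -- the gcd is one of the common divisors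
  have h1 : ∀ x ∈ Icc 1 M, ∀ y ∈ range (M + 1), ((Nat.gcd x y : ℕ) / (x : ℝ)) ≤
      ∑ e ∈ Icc 1 M, if e ∣ x ∧ e ∣ y then (e : ℝ) / x else 0 := by
    intro x hx y _
    rw [mem_Icc] at hx
    have hgm : Nat.gcd x y ∈ Icc 1 M := by
      rw [mem_Icc]
      exact ⟨Nat.gcd_pos_of_pos_left _ (by omega), (Nat.gcd_le_left _ (by omega)).trans hx.2⟩
    have h2 := single_le_sum (f := fun e : ℕ => if e ∣ x ∧ e ∣ y then (e : ℝ) / x else 0) (fun e _ => by
      split_ifs
      · positivity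
      · exact le_rfl) hgm
    rw [if_pos ⟨Nat.gcd_dvd_left x y, Nat.gcd_dvd_right x y⟩] at h2
    exact h2
  refine (sum_le_sum fun x hx => sum_le_sum fun y hy => h1 x hx y hy).trans ?_
  have e1 : ∑ x ∈ Icc 1 M, ∑ y ∈ range (M + 1), ∑ e ∈ Icc 1 M, (if e ∣ x ∧ e ∣ y then (e : ℝ) / x else 0) =
      ∑ e ∈ Icc 1 M, (∑ x ∈ (Icc 1 M).filter (fun x => e ∣ x), (e : ℝ) / x) *
        (((range (M + 1)).filter (fun y => e ∣ y)).card : ℝ) := by
    have e2 : ∀ x ∈ Icc 1 M, ∑ y ∈ range (M + 1), ∑ e ∈ Icc 1 M, (if e ∣ x ∧ e ∣ y then (e : ℝ) / x else 0) =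
        ∑ e ∈ Icc 1 M, ∑ y ∈ range (M + 1), (if e ∣ x ∧ e ∣ y then (e : ℝ) / x else 0) := fun x _ => sum_comm
    rw [sum_congr rfl e2, sum_comm]
    refine sum_congr rfl fun e _ => ?_
    rw [sum_mul, sum_filter]
    refine sum_congr rfl fun x _ => ?_
    split_ifs with hex
    · simp only [hex, true_and]
      rw [← sum_filter, sum_const, nsmul_eq_mul]
      ring
    · simp [hex]
  rw [e1]
  have h2 : ∀ e ∈ Icc 1 M, (∑ x ∈ (Icc 1 M).filter (fun x => e ∣ x), (e : ℝ) / x) *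
        (((range (M + 1)).filter (fun y => e ∣ y)).card : ℝ) ≤ (1 + Real.log M) * (2 * M * (1 / e)) := by
    intro e he
    rw [mem_Icc] at he
    have he0 : (0 : ℝ) < e := by exact_mod_cast he.1
    have hMe : (1 : ℝ) ≤ M / e := by rw [le_div_iff₀ he0, one_mul]; exact_mod_cast he.2
    have h3 : ∑ x ∈ (Icc 1 M).filter (fun x => e ∣ x), (e : ℝ) / x ≤ 1 + Real.log M := by
      have hsub : (Icc 1 M).filter (fun x => e ∣ x) ⊆ (Icc 1 (M / e)).image (fun z => e * z) := by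
        intro x hx
        rw [mem_filter, mem_Icc] at hx
        obtain ⟨⟨h4, h5⟩, z, hz⟩ := hx
        rw [mem_image]
        refine ⟨z, ?_, hz.symm⟩
        rw [mem_Icc]
        constructor
        · rcases Nat.eq_zero_or_pos z with h6 | h6
          · subst h6; simp at hz; omega
          · exact h6
        · rw [Nat.le_div_iff_mul_le (by omega), mul_comm, ← hz]
          exact h5
      refine (sum_le_sum_of_subset_of_nonneg hsub fun _ _ _ => by positivity).trans ?_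
      rw [sum_image (fun a _ b _ h => Nat.eq_of_mul_eq_mul_left (by omega) h)]
      refine le_trans (le_of_eq ?_) (hharm (M / e) (Nat.div_le_self _ _))
      refine sum_congr rfl fun z _ => ?_
      push_cast
      rcases Nat.eq_zero_or_pos z with h6 | h6
      · subst h6; simp
      · have : (0 : ℝ) < z := by exact_mod_cast h6
        field_simp
    have h4 : (((range (M + 1)).filter (fun y => e ∣ y)).card : ℝ) ≤ 2 * M * (1 / e) := by
      have hsub : (range (M + 1)).filter (fun y => e ∣ y) ⊆ (range (M / e + 1)).image (fun z => e * z) := by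
        intro y hy
        rw [mem_filter, mem_range] at hy
        obtain ⟨h5, z, hz⟩ := hy
        rw [mem_image]
        refine ⟨z, ?_, hz.symm⟩
        rw [mem_range]
        have : z ≤ M / e := by
          rw [Nat.le_div_iff_mul_le (by omega), mul_comm, ← hz]
          omega
        omega
      have h5 := (card_le_card hsub).trans card_image_le
      rw [card_range] at h5
      have h6 : (((range (M + 1)).filter (fun y => e ∣ y)).card : ℝ) ≤ ((M / e : ℕ) : ℝ) + 1 := by exact_mod_cast h5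
      have h7 : ((M / e : ℕ) : ℝ) ≤ M / e := Nat.cast_div_le
      have h8 : 2 * (M : ℝ) * (1 / e) = 2 * (M / e) := by ring
      rw [h8]
      linarith
    exact mul_le_mul h3 h4 (Nat.cast_nonneg _) hl0
  refine (sum_le_sum h2).trans ?_
  rw [← mul_sum, ← mul_sum]
  have h3 := hharm M le_rfl
  have hM0 : (0 : ℝ) ≤ M := Nat.cast_nonneg _
  calc (1 + Real.log M) * (2 * M * ∑ e ∈ Icc 1 M, 1 / (e : ℝ)) ≤ (1 + Real.log M) * (2 * M * (1 + Real.log M)) := by gcongr
    _ = _ := by ring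

/-- the number of the pairs of parallel vectors in a square -/
theorem par_total (M : ℕ) :
    ∑ x ∈ (Icc (-(M : ℤ)) M).filter (fun x => x ≠ 0), ∑ y ∈ Icc (-(M : ℤ)) M,
      ((((Icc (-(M : ℤ)) M) ×ˢ (Icc (-(M : ℤ)) M)).filter (fun P : ℤ × ℤ => x * P.2 = P.1 * y)).card : ℝ) ≤
      24 * M ^ 2 * (1 + Real.log M) ^ 2 := by
  classical
  have hM0 : (0 : ℝ) ≤ M := Nat.cast_nonneg _
  have h1 : ∀ x ∈ (Icc (-(M : ℤ)) M).filter (fun x => x ≠ 0), ∀ y ∈ Icc (-(M : ℤ)) M,
      ((((Icc (-(M : ℤ)) M) ×ˢ (Icc (-(M : ℤ)) M)).filter (fun P : ℤ × ℤ => x * P.2 = P.1 * y)).card : ℝ) ≤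
      3 * M * ((x.natAbs.gcd y.natAbs : ℕ) / (x.natAbs : ℝ)) := by
    intro x hx y _
    rw [mem_filter, mem_Icc] at hx
    exact par_count M x y hx.2 (by omega)
  refine (sum_le_sum fun x hx => sum_le_sum fun y hy => h1 x hx y hy).trans ?_
  set φ : ℕ → ℝ := fun n => if n = 0 then 0 else ∑ y ∈ range (M + 1), ((Nat.gcd n y : ℕ) / (n : ℝ)) with hφ
  have hφ0 : ∀ n, 0 ≤ φ n := by
    intro n
    rw [hφ]
    simp only
    split_ifs
    · exact le_rfl
    · exact sum_nonneg fun _ _ => by positivity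
  have h2 : ∀ x ∈ (Icc (-(M : ℤ)) M).filter (fun x => x ≠ 0),
      ∑ y ∈ Icc (-(M : ℤ)) M, 3 * M * ((x.natAbs.gcd y.natAbs : ℕ) / (x.natAbs : ℝ)) ≤ 6 * M * φ x.natAbs := by
    intro x hx
    have hx0 := (mem_filter.1 hx).2
    rw [hφ]
    simp only
    rw [if_neg (by omega), ← mul_sum]
    have h3 := natAbs_sum M (fun n => ((x.natAbs.gcd n : ℕ) / (x.natAbs : ℝ))) (fun n => by positivity)
    have hM0' : (0 : ℝ) ≤ 3 * M := by positivity
    have h4 := mul_le_mul_of_nonneg_left h3 hM0'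
    refine h4.trans (le_of_eq ?_)
    ring
  refine (sum_le_sum h2).trans ?_
  have h3 : ∑ x ∈ (Icc (-(M : ℤ)) M).filter (fun x => x ≠ 0), 6 * M * φ x.natAbs ≤
      ∑ x ∈ Icc (-(M : ℤ)) M, 6 * M * φ x.natAbs :=
    sum_le_sum_of_subset_of_nonneg (filter_subset _ _) fun x _ _ => by
      have := hφ0 x.natAbs
      positivity
  refine h3.trans ?_
  rw [← mul_sum]
  have h4 := natAbs_sum M φ hφ0
  have h5 : ∑ n ∈ range (M + 1), φ n = ∑ x ∈ Icc 1 M, ∑ y ∈ range (M + 1), ((Nat.gcd x y : ℕ) / (x : ℝ)) := by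
    rw [sum_range_eq_add_Ico _ (by omega)]
    have e0 : φ 0 = 0 := by rw [hφ]; simp
    rw [e0, zero_add]
    have e1 : Ico 1 (M + 1) = Icc 1 M := by ext z; simp [Nat.lt_succ_iff]
    rw [e1]
    refine sum_congr rfl fun x hx => ?_
    rw [mem_Icc] at hx
    rw [hφ]
    simp only
    rw [if_neg (by omega)]
  have h6 := gcd_sum M
  rw [h5] at h4
  calc 6 * (M : ℝ) * ∑ x ∈ Icc (-(M : ℤ)) M, φ x.natAbs ≤ 6 * M * (2 * (2 * M * (1 + Real.log M) ^ 2)) := by
        apply mul_le_mul_of_nonneg_left _ (by positivity)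
        linarith
    _ = _ := by ring

end Pool.Agent.U708.BF
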