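import Mathlib
import Pool.Agent.TP975.LR.Lg1

/-!
# Project BF: rectangles from dyadic rectangles, and the resampling of one coordinate
-/

set_option autoImplicit false

namespace Pool.Agent.U708.BF

open Finset Filter
open Pool.Agent.TP975.LR (dyad)

lemma dyadR (x : ℕ → ℝ) (m0 : ℕ) (b : ℝ) (hb : 0 ≤ b)
    (h : ∀ k ≤ m0, ∀ i, (i + 1) * 2 ^ k ≤ 2 ^ m0 → |∑ u ∈ Ioc (i * 2 ^ k) ((i + 1) * 2 ^ k), x u| ≤ b) :
    ∀ t ≤ 2 ^ m0, |∑ u ∈ Ioc 0 t, x u| ≤ (m0 + 1) * b := by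
  intro t ht
  have h1 := dyad (fun u => ((x u : ℝ) : ℂ)) m0 b hb (by
    intro k hk i hi
    have h2 := h k hk i hi
    rw [← Complex.ofReal_sum, Complex.norm_real, Real.norm_eq_abs]
    exact h2) m0 le_rfl 0 (by simp) t ht
  rw [← Complex.ofReal_sum, Complex.norm_real, Real.norm_eq_abs] at h1
  simpa using h1

/-- anchored rectangles -/
lemma dyad2 (x : ℕ → ℕ → ℝ) (m0 : ℕ) (b : ℝ) (hb : 0 ≤ b)
    (h : ∀ k ≤ m0, ∀ i, (i + 1) * 2 ^ k ≤ 2 ^ m0 → ∀ l ≤ m0, ∀ j, (j + 1) * 2 ^ l ≤ 2 ^ m0 →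
      |∑ u ∈ Ioc (i * 2 ^ k) ((i + 1) * 2 ^ k), ∑ v ∈ Ioc (j * 2 ^ l) ((j + 1) * 2 ^ l), x u v| ≤ b) :
    ∀ s ≤ 2 ^ m0, ∀ t ≤ 2 ^ m0, |∑ u ∈ Ioc 0 s, ∑ v ∈ Ioc 0 t, x u v| ≤ (m0 + 1) ^ 2 * b := by
  intro s hs t ht
  have h1 := dyadR (fun u => ∑ v ∈ Ioc 0 t, x u v) m0 ((m0 + 1) * b) (by positivity) (by
    intro k hk i hi
    rw [sum_comm]
    refine dyadR (fun v => ∑ u ∈ Ioc (i * 2 ^ k) ((i + 1) * 2 ^ k), x u v) m0 b hb ?_ t ht
    intro l hl j hj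
    rw [sum_comm]
    exact h k hk i hi l hl j hj) s hs
  refine h1.trans (le_of_eq ?_)
  ring

/-- all rectangles -/
lemma rects (x : ℕ → ℕ → ℝ) (m0 : ℕ) (b : ℝ) (hb : 0 ≤ b)
    (h : ∀ k ≤ m0, ∀ i, (i + 1) * 2 ^ k ≤ 2 ^ m0 → ∀ l ≤ m0, ∀ j, (j + 1) * 2 ^ l ≤ 2 ^ m0 →
      |∑ u ∈ Ioc (i * 2 ^ k) ((i + 1) * 2 ^ k), ∑ v ∈ Ioc (j * 2 ^ l) ((j + 1) * 2 ^ l), x u v| ≤ b) :
    ∀ s s' t t' : ℕ, s ≤ s' → s' ≤ 2 ^ m0 → t ≤ t' → t' ≤ 2 ^ m0 →
      |∑ u ∈ Ioc s s', ∑ v ∈ Ioc t t', x u v| ≤ 4 * ((m0 + 1) ^ 2 * b) := by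
  intro s s' t t' hs hs' ht ht'
  have h0 := dyad2 x m0 b hb h
  have e1 : ∀ u, ∑ v ∈ Ioc t t', x u v = ∑ v ∈ Ioc 0 t', x u v - ∑ v ∈ Ioc 0 t, x u v := by
    intro u
    rw [← sum_Ioc_consecutive (fun v => x u v) (Nat.zero_le t) ht]
    ring
  have e2 : ∀ f : ℕ → ℝ, ∑ u ∈ Ioc s s', f u = ∑ u ∈ Ioc 0 s', f u - ∑ u ∈ Ioc 0 s, f u := by
    intro f
    rw [← sum_Ioc_consecutive f (Nat.zero_le s) hs]
    ring
  rw [e2]
  simp only [e1, sum_sub_distrib]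
  have a1 := h0 s' hs' t' ht'
  have a2 := h0 s' hs' t (ht.trans ht')
  have a3 := h0 s (hs.trans hs') t' ht'
  have a4 := h0 s (hs.trans hs') t (ht.trans ht')
  rw [abs_le] at *
  constructor <;> linarith [a1.1, a1.2, a2.1, a2.2, a3.1, a3.2, a4.1, a4.2]

/-- consecutive blocks -/
lemma blocks (f : ℕ → ℝ) (c n : ℕ) :
    ∑ i ∈ range n, ∑ u ∈ Ioc (i * c) ((i + 1) * c), f u = ∑ u ∈ Ioc 0 (n * c), f u := by
  induction n with
  | zero => simp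
  | succ n ih =>
    rw [sum_range_succ, ih]
    exact sum_Ioc_consecutive f (Nat.zero_le _) (Nat.mul_le_mul_right _ (Nat.le_succ _))

/-- one coordinate is chosen again -/
lemma resample {α : Type} [DecidableEq α] {k : ℕ} (Q : Finset α) (i0 : Fin k) (T : Finset (Fin k → α))
    (hT : T ⊆ Fintype.piFinset (fun _ : Fin k => Q)) (c : ℝ)
    (h : ∀ e ∈ Fintype.piFinset (fun _ : Fin k => Q), ((Q.filter (fun a => Function.update e i0 a ∈ T)).card : ℝ) ≤ c) :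
    (T.card : ℝ) * Q.card ≤ (Fintype.piFinset (fun _ : Fin k => Q)).card * c := by
  classical
  set B := Fintype.piFinset (fun _ : Fin k => Q) with hB
  have h1 : ∑ e ∈ B, ((Q.filter (fun a => Function.update e i0 a ∈ T)).card : ℝ) = (T.card : ℝ) * Q.card := by
    have e1 : ∑ e ∈ B, ((Q.filter (fun a => Function.update e i0 a ∈ T)).card : ℝ) =
        ∑ p ∈ B ×ˢ Q, (if Function.update p.1 i0 p.2 ∈ T then (1 : ℝ) else 0) := by
      rw [sum_product]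
      refine sum_congr rfl fun e _ => ?_
      rw [sum_boole]
    have e2 : (T.card : ℝ) * Q.card = ∑ p ∈ B ×ˢ Q, (if p.1 ∈ T then (1 : ℝ) else 0) := by
      rw [sum_product]
      have e3 : ∀ x ∈ B, ∑ _y ∈ Q, (if x ∈ T then (1 : ℝ) else 0) = Q.card * (if x ∈ T then (1 : ℝ) else 0) := by
        intro x _
        rw [sum_const, nsmul_eq_mul]
      rw [sum_congr rfl e3, ← mul_sum, sum_boole]
      have : B.filter (fun x => x ∈ T) = T := by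
        ext x
        rw [mem_filter]
        exact ⟨fun h => h.2, fun h => ⟨hT h, h⟩⟩
      rw [this]
      ring
    rw [e1, e2]
    have hmem : ∀ p ∈ B ×ˢ Q, (Function.update p.1 i0 p.2, p.1 i0) ∈ B ×ˢ Q := by
      intro p hp
      rw [mem_product] at hp ⊢
      obtain ⟨hp1, hp2⟩ := hp
      rw [hB, Fintype.mem_piFinset] at hp1 ⊢
      refine ⟨fun i => ?_, hp1 i0⟩
      show Function.update p.1 i0 p.2 i ∈ Q
      by_cases hi : i = i0
      · subst hi; rw [Function.update_self]; exact hp2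
      · rw [Function.update_of_ne hi]; exact hp1 i
    have hinv : ∀ p : (Fin k → α) × α,
        (Function.update (Function.update p.1 i0 p.2) i0 (p.1 i0), (Function.update p.1 i0 p.2) i0) = p := by
      intro p
      rw [Function.update_self, Function.update_idem, Function.update_eq_self]
    exact sum_nbij' (fun p => (Function.update p.1 i0 p.2, p.1 i0)) (fun p => (Function.update p.1 i0 p.2, p.1 i0))
      hmem hmem (fun p _ => hinv p) (fun p _ => hinv p) (fun p _ => rfl)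
  rw [← h1]
  refine (sum_le_sum h).trans (le_of_eq ?_)
  rw [sum_const, nsmul_eq_mul]

end Pool.Agent.U708.BF
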