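import Mathlib
import Pool.Agent.TP975.LR.La1
import Pool.Agent.TP975.RP.Bil
import Pool.Agent.TP975.RP.ML

/-!
# Project BF: pairs of values which are moved independently

`F` is a function of the integers with small exponential sums on the intervals `[-V, V]` with
`V ≤ H (log H) ^ C`, for example Liouville's function.
-/

set_option autoImplicit false

namespace Pool.Agent.U708.BF

open Finset Filter
open Pool.Agent.H807R2.Dav
open Pool.Agent.TP975.RP
open Pool.Agent.TP975.LR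

/-- the members of a progression as the members of a residue class in an interval -/
lemma ap_eq (F : ℤ → ℝ) (c : ℤ) (D n : ℕ) (hD : 1 ≤ D) (hn : 1 ≤ n) :
    ∑ t ∈ range n, F (c + (t : ℤ) * D) =
      ∑ s ∈ Icc c (c + ((n : ℤ) - 1) * D), if (D : ℤ) ∣ s - c then F s else 0 := by
  classical
  rw [← sum_filter]
  refine sum_bij (fun t _ => c + (t : ℤ) * D) ?_ ?_ ?_ ?_
  · intro t ht
    rw [mem_range] at ht
    rw [mem_filter, mem_Icc]
    have h1 : (0 : ℤ) ≤ (t : ℤ) * D := by positivity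
    have h2 : (t : ℤ) * D ≤ ((n : ℤ) - 1) * D := by
      apply mul_le_mul_of_nonneg_right _ (by positivity)
      omega
    refine ⟨⟨by omega, by omega⟩, ⟨(t : ℤ), by ring⟩⟩
  · intro t _ t' _ h
    have h1 : (t : ℤ) * D = (t' : ℤ) * D := by linarith
    have h2 : (D : ℤ) ≠ 0 := by omega
    have h3 := mul_right_cancel₀ h2 h1
    exact_mod_cast h3
  · intro s hs
    rw [mem_filter, mem_Icc] at hs
    obtain ⟨⟨h1, h2⟩, u, hu⟩ := hs
    have hD0 : (0 : ℤ) < D := by omega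
    have hu0 : 0 ≤ u := by
      by_contra hcon
      have : (D : ℤ) * u < 0 := mul_neg_of_pos_of_neg hD0 (by omega)
      omega
    have hu1 : u ≤ (n : ℤ) - 1 := by
      by_contra hcon
      have h3 : ((n : ℤ) - 1) * D < D * u := by
        rw [mul_comm (D : ℤ) u]
        exact mul_lt_mul_of_pos_right (by omega) hD0
      omega
    refine ⟨u.toNat, ?_, ?_⟩
    · rw [mem_range]; omega
    · have : ((u.toNat : ℕ) : ℤ) = u := Int.toNat_of_nonneg hu0
      rw [this]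
      linarith
  · intro t _
    rfl

lemma ap_pos (F : ℤ → ℝ) (V : ℕ) (E : ℝ)
    (h : ∀ lo hi : ℤ, -(V : ℤ) ≤ lo → hi ≤ V → ∀ α : ℝ, ‖∑ s ∈ Icc lo hi, ((F s : ℝ) : ℂ) * ee ((s : ℝ) * α)‖ ≤ E)
    (c : ℤ) (D n : ℕ) (hD : 1 ≤ D) (hlo : -(V : ℤ) ≤ c) (hhi : c + ((n : ℤ) - 1) * D ≤ V) :
    |∑ t ∈ range n, F (c + (t : ℤ) * D)| ≤ E := by
  have hE : 0 ≤ E := (norm_nonneg _).trans (h (V : ℤ) (V : ℤ) (by omega) le_rfl 0)
  rcases Nat.eq_zero_or_pos n with hn | hn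
  · subst hn
    simpa using hE
  rw [ap_eq F c D n hD hn]
  have hD0 : (D : ℂ) ≠ 0 := by
    have : (D : ℂ) ≠ ((0 : ℕ) : ℂ) := by
      intro h0
      have := Nat.cast_injective h0
      omega
    simpa using this
  have hDr : (0 : ℝ) < D := by exact_mod_cast hD
  have key : ((∑ s ∈ Icc c (c + ((n : ℤ) - 1) * D), (if (D : ℤ) ∣ s - c then F s else 0) : ℝ) : ℂ) =
      (1 / (D : ℂ)) * ∑ j ∈ range D, ee (-((j : ℝ) * (c / D))) *
        ∑ s ∈ Icc c (c + ((n : ℤ) - 1) * D), ((F s : ℝ) : ℂ) * ee ((s : ℝ) * ((j : ℝ) / D)) := by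
    have e1 : ∑ j ∈ range D, ee (-((j : ℝ) * (c / D))) *
        ∑ s ∈ Icc c (c + ((n : ℤ) - 1) * D), ((F s : ℝ) : ℂ) * ee ((s : ℝ) * ((j : ℝ) / D)) =
        ∑ s ∈ Icc c (c + ((n : ℤ) - 1) * D), ((F s : ℝ) : ℂ) *
          ∑ j ∈ range D, ee ((j : ℝ) * (((s - c : ℤ) : ℝ) / D)) := by
      simp only [mul_sum]
      rw [sum_comm]
      refine sum_congr rfl fun s _ => sum_congr rfl fun j _ => ?_
      have e2 : (j : ℝ) * (((s - c : ℤ) : ℝ) / D) = -((j : ℝ) * (c / D)) + (s : ℝ) * ((j : ℝ) / D) := by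
        push_cast
        field_simp
        ring
      rw [e2, ee_add]
      ring
    rw [e1, Complex.ofReal_sum, mul_sum]
    refine sum_congr rfl fun s _ => ?_
    rw [orth D hD (s - c)]
    split_ifs with hdv
    · field_simp
    · simp
  have h2 : ‖((∑ s ∈ Icc c (c + ((n : ℤ) - 1) * D), (if (D : ℤ) ∣ s - c then F s else 0) : ℝ) : ℂ)‖ ≤ E := by
    rw [key, norm_mul]
    have h3 : ‖∑ j ∈ range D, ee (-((j : ℝ) * (c / D))) *
        ∑ s ∈ Icc c (c + ((n : ℤ) - 1) * D), ((F s : ℝ) : ℂ) * ee ((s : ℝ) * ((j : ℝ) / D))‖ ≤ D * E := by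
      refine (norm_sum_le _ _).trans ?_
      have h4 : ∀ j ∈ range D, ‖ee (-((j : ℝ) * (c / D))) *
          ∑ s ∈ Icc c (c + ((n : ℤ) - 1) * D), ((F s : ℝ) : ℂ) * ee ((s : ℝ) * ((j : ℝ) / D))‖ ≤ E := by
        intro j _
        rw [norm_mul, norm_ee, one_mul]
        exact h _ _ hlo hhi _
      refine (sum_le_sum h4).trans ?_
      rw [sum_const, card_range, nsmul_eq_mul]
    have h5 : ‖(1 / (D : ℂ))‖ = 1 / D := by
      rw [norm_div, norm_one, Complex.norm_natCast]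
    rw [h5]
    calc 1 / (D : ℝ) * _ ≤ 1 / D * (D * E) := mul_le_mul_of_nonneg_left h3 (by positivity)
      _ = E := by field_simp
  rwa [Complex.norm_real, Real.norm_eq_abs] at h2

/-- sums over progressions of nonzero differences -/
lemma ap_int (F : ℤ → ℝ) (V : ℕ) (E : ℝ)
    (h : ∀ lo hi : ℤ, -(V : ℤ) ≤ lo → hi ≤ V → ∀ α : ℝ, ‖∑ s ∈ Icc lo hi, ((F s : ℝ) : ℂ) * ee ((s : ℝ) * α)‖ ≤ E)
    (c D : ℤ) (n : ℕ) (hD : D ≠ 0) (hb : ∀ t : ℕ, t < n → |c + (t : ℤ) * D| ≤ V) :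
    |∑ t ∈ range n, F (c + (t : ℤ) * D)| ≤ E := by
  have hE : 0 ≤ E := (norm_nonneg _).trans (h (V : ℤ) (V : ℤ) (by omega) le_rfl 0)
  rcases Nat.eq_zero_or_pos n with hn | hn
  · subst hn
    simpa using hE
  have b0 := hb 0 hn
  have b1 := hb (n - 1) (by omega)
  have en : ((n - 1 : ℕ) : ℤ) = (n : ℤ) - 1 := by omega
  rw [en] at b1
  simp only [Nat.cast_zero, zero_mul, add_zero] at b0
  rw [abs_le] at b0 b1
  rcases lt_or_gt_of_ne hD with h0 | h0
  · -- negative difference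
    obtain ⟨N, hN⟩ : ∃ N : ℕ, D = -(N : ℤ) := ⟨D.natAbs, by omega⟩
    have hN1 : 1 ≤ N := by omega
    have e1 : ∑ t ∈ range n, F (c + (t : ℤ) * D) = ∑ t ∈ range n, F ((c + ((n : ℤ) - 1) * D) + (t : ℤ) * N) := by
      rw [← sum_range_reflect]
      refine sum_congr rfl fun t ht => ?_
      rw [mem_range] at ht
      congr 1
      have e2 : ((n - 1 - t : ℕ) : ℤ) = (n : ℤ) - 1 - t := by omega
      rw [e2, hN]
      ring
    rw [e1]
    refine ap_pos F V E h _ N n hN1 b1.1 ?_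
    have e3 : c + ((n : ℤ) - 1) * D + ((n : ℤ) - 1) * N = c := by rw [hN]; ring
    rw [e3]
    exact b0.2
  · obtain ⟨N, hN⟩ : ∃ N : ℕ, D = (N : ℤ) := ⟨D.natAbs, by omega⟩
    have hN1 : 1 ≤ N := by omega
    rw [hN]
    rw [hN] at b1
    exact ap_pos F V E h c N n hN1 b0.1 b1.2

end Pool.Agent.U708.BF
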