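import Mathlib
import Pool.Agent.U708.BF.Prog

/-!
# Project BF: the correlation of two values which are moved independently
-/

set_option autoImplicit false

namespace Pool.Agent.U708.BF

open Finset Filter
open Pool.Agent.H807R2.Dav
open Pool.Agent.TP975.RP
open Pool.Agent.TP975.LR

/-- the value at `P` can be moved while the value at `P'` stays -/
def Sep (d : ℕ) {Pt : Type} (val : (Fin (d + 1) → ℤ) → Pt → ℤ) (W : ℝ) (P P' : Pt) : Prop :=
  ∃ (w : Fin (d + 1) → ℤ) (D : ℤ), D ≠ 0 ∧ (∀ c, |(w c : ℝ)| ≤ W) ∧ ∀ (a : Fin (d + 1) → ℤ) (t : ℤ),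
    val (a + t • w) P = val a P + t * D ∧ val (a + t • w) P' = val a P'

theorem pair (F : ℤ → ℝ) (hF : WinB F) (hFb : ∀ v, |F v| ≤ 1) (d K U : ℕ) : ∃ H0 : ℕ, ∀ H : ℕ, H0 ≤ H →
    ∀ (Pt : Type) (val : (Fin (d + 1) → ℤ) → Pt → ℤ) (P P' : Pt), Sep d val (Real.log H ^ K) P P' →
    (∀ a : Fin (d + 1) → ℤ, (∀ c, |a c| ≤ 2 * H) → |(val a P : ℝ)| ≤ H * Real.log H ^ K) →
    ∀ G : ℤ → ℝ, (∀ v, |G v| ≤ 1) →
    |∑ a ∈ QQ d H, F (val a P) * G (val a P')| ≤ (QQ d H).card / Real.log H ^ U := by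
  set B1 := U + K + 2 with hB1
  set U1 := B1 + U + 1 with hU1
  obtain ⟨N0, hN0⟩ := hF K U1
  have hev : ∀ᶠ H : ℕ in atTop, N0 ≤ H ∧ 2 * Real.log H ^ B1 ≤ H ∧
      ((4 : ℝ) * (d + 1) + 8) ≤ Real.log H ∧ 3 ≤ H := by
    filter_upwards [eventually_ge_atTop N0, ev_pow B1 2,
      ev_log ((4 : ℝ) * (d + 1) + 8), eventually_ge_atTop 3] with H a1 a4 a5 a6
    exact ⟨a1, a4, a5, a6⟩
  obtain ⟨H0, hH0⟩ := eventually_atTop.1 hev
  refine ⟨H0, fun H hH Pt val P P' hsep hval G hG => ?_⟩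
  obtain ⟨a1, a4, a5, a6⟩ := hH0 H hH
  have hwin := hN0 H a1
  set L := Real.log H with hL
  have hd0 : (0 : ℝ) ≤ d := Nat.cast_nonneg d
  have hL8 : 8 ≤ L := by linarith
  have hL0 : 0 < L := by linarith
  have hL1 : 1 ≤ L := by linarith
  have hH3 : (3 : ℝ) ≤ H := by exact_mod_cast a6
  have hHp : (0 : ℝ) < H := by linarith
  obtain ⟨w, D, hD, hw, hmov⟩ := hsep
  set n := ⌊(H : ℝ) / L ^ B1⌋₊ with hn
  have hn1 : (n : ℝ) ≤ H / L ^ B1 := Nat.floor_le (by positivity)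
  have hn2 : (H : ℝ) / (2 * L ^ B1) ≤ n := by
    have h1 := Nat.lt_floor_add_one ((H : ℝ) / L ^ B1)
    rw [← hn] at h1
    have h2 : (2 : ℝ) ≤ H / L ^ B1 := by rw [le_div_iff₀ (by positivity)]; exact a4
    have h3 : (H : ℝ) / (2 * L ^ B1) = (H / L ^ B1) / 2 := by field_simp
    rw [h3]; linarith
  have hnpos : (0 : ℝ) < n := lt_of_lt_of_le (by positivity) hn2
  set S : ℝ := n * L ^ K with hS
  have hSle : S ≤ H / L ^ (U + 2) := by
    have h1 : S ≤ (H / L ^ B1) * L ^ K := by rw [hS]; gcongr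
    refine h1.trans (le_of_eq ?_)
    have h2 : L ^ B1 = L ^ K * L ^ (U + 2) := by rw [hB1]; ring
    rw [h2]
    field_simp
  have hSH : S ≤ H := hSle.trans (div_le_self hHp.le (one_le_pow₀ hL1))
  set V := ⌊(H : ℝ) * L ^ K⌋₊ with hV
  have hV1 : (V : ℝ) ≤ H * L ^ K := Nat.floor_le (by positivity)
  have hs : ∀ t < n, ∀ c, |(((t : ℤ) • w) c : ℝ)| ≤ S := by
    intro t ht c
    rw [Pi.smul_apply, smul_eq_mul]
    push_cast
    rw [abs_mul, Nat.abs_cast, hS]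
    have h1 : (t : ℝ) ≤ n := by exact_mod_cast ht.le
    exact mul_le_mul h1 (hw c) (abs_nonneg _) hnpos.le
  set Ψ : (Fin (d + 1) → ℤ) → ℝ := fun a => F (val a P) * G (val a P') with hΨ
  have hΨb : ∀ a : Fin (d + 1) → ℤ, (∀ c, |a c| ≤ 2 * H) → |Ψ a| ≤ 1 := by
    intro a _
    rw [hΨ]
    simp only
    rw [abs_mul]
    exact mul_le_one₀ (hFb _) (abs_nonneg _) (hG _)
  have hshift : ∀ t ∈ range n, |∑ a ∈ QQ d H, Ψ a - ∑ a ∈ QQ d H, Ψ (a + (t : ℤ) • w)| ≤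
        2 * ((d + 1) * S * (2 * H + 1) ^ d) * 1 := by
    intro t ht
    rw [mem_range] at ht
    exact shift_sum d H _ S (hs t ht) hSH Ψ 1 hΨb
  have hinner : ∀ a ∈ QQ d H, |∑ t ∈ range n, Ψ (a + (t : ℤ) • w)| ≤ H / L ^ U1 := by
    intro a ha
    rw [mem_QQ] at ha
    have e1 : ∑ t ∈ range n, Ψ (a + (t : ℤ) • w) = (∑ t ∈ range n, F (val a P + (t : ℤ) * D)) * G (val a P') := by
      rw [sum_mul]
      refine sum_congr rfl fun t _ => ?_
      rw [hΨ]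
      simp only
      rw [(hmov a t).1, (hmov a t).2]
    rw [e1, abs_mul]
    have h1 : |∑ t ∈ range n, F (val a P + (t : ℤ) * D)| ≤ H / L ^ U1 := by
      refine ap_int F V _ (fun lo hi hlo hhi α => hwin V hV1 lo hi hlo hhi α) _ D n hD ?_
      intro t ht
      rw [← (hmov a t).1]
      have h2 := hval (a + (t : ℤ) • w) (by
        intro c
        rw [Pi.add_apply]
        have h1 := (hs t ht c).trans hSH
        have h2 : |((t : ℤ) • w) c| ≤ (H : ℤ) := by exact_mod_cast h1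
        have h3 := abs_add_le (a c) (((t : ℤ) • w) c)
        have h4 := ha c
        omega)
      have h3 : ((val (a + (t : ℤ) • w) P).natAbs : ℝ) ≤ H * L ^ K := by
        rw [Nat.cast_natAbs]; push_cast; exact h2
      have h4 : (val (a + (t : ℤ) • w) P).natAbs ≤ V := Nat.le_floor h3
      rw [Int.abs_eq_natAbs]
      exact_mod_cast h4
    calc |∑ t ∈ range n, F (val a P + (t : ℤ) * D)| * |G (val a P')| ≤ (H / L ^ U1) * 1 :=
          mul_le_mul h1 (hG _) (abs_nonneg _) (by positivity)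
      _ = _ := mul_one _
  have hQ : ((QQ d H).card : ℝ) = (2 * H + 1) ^ (d + 1) := by rw [card_QQ]; push_cast; rfl
  have hQ0 : (0 : ℝ) < (2 * H + 1) ^ (d + 1) := by positivity
  -- sum over the shifts
  have h1 : |(n : ℝ) * ∑ a ∈ QQ d H, Ψ a| ≤
      n * (2 * ((d + 1) * S * (2 * H + 1) ^ d)) + (2 * H + 1) ^ (d + 1) * (H / L ^ U1) := by
    have e1 : (n : ℝ) * ∑ a ∈ QQ d H, Ψ a =
        ∑ t ∈ range n, (∑ a ∈ QQ d H, Ψ a - ∑ a ∈ QQ d H, Ψ (a + (t : ℤ) • w)) +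
        ∑ a ∈ QQ d H, ∑ t ∈ range n, Ψ (a + (t : ℤ) • w) := by
      rw [sum_sub_distrib, sum_const, card_range, nsmul_eq_mul, sum_comm (s := range n)]
      ring
    rw [e1]
    refine (abs_add_le _ _).trans (add_le_add ?_ ?_)
    · refine (abs_sum_le_sum_abs _ _).trans ((sum_le_sum hshift).trans (le_of_eq ?_))
      rw [sum_const, card_range, nsmul_eq_mul]
      ring
    · refine (abs_sum_le_sum_abs _ _).trans ((sum_le_sum hinner).trans (le_of_eq ?_))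
      rw [sum_const, nsmul_eq_mul, hQ]
  rw [abs_mul, abs_of_pos hnpos] at h1
  have h2 : |∑ a ∈ QQ d H, Ψ a| ≤ 2 * ((d + 1) * S * (2 * H + 1) ^ d) + (2 * H + 1) ^ (d + 1) * (H / L ^ U1) / n := by
    have h3 : |∑ a ∈ QQ d H, Ψ a| ≤
        (n * (2 * ((d + 1) * S * (2 * H + 1) ^ d)) + (2 * H + 1) ^ (d + 1) * (H / L ^ U1)) / n := by
      rw [le_div_iff₀ hnpos]
      linarith
    refine h3.trans (le_of_eq ?_)
    field_simp
  refine h2.trans ?_
  rw [hQ]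
  -- the two terms
  have t1 : 2 * ((d + 1) * S * (2 * H + 1) ^ d) ≤ (2 * H + 1) ^ (d + 1) / L ^ U / 2 := by
    have h3 : 2 * ((d + 1) * S * (2 * H + 1) ^ d) ≤ 2 * ((d + 1) * (H / L ^ (U + 2)) * (2 * H + 1) ^ d) := by gcongr
    refine h3.trans ?_
    rw [div_div, show (2 : ℝ) * ((d + 1) * (H / L ^ (U + 2)) * (2 * H + 1) ^ d) =
      (2 * (d + 1) * H * (2 * H + 1) ^ d) / L ^ (U + 2) by ring, div_le_div_iff₀ (by positivity) (by positivity)]
    have h4 : L ^ (U + 2) = L ^ U * L * L := by ring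
    have h5 : ((2 : ℝ) * H + 1) ^ (d + 1) = (2 * H + 1) ^ d * (2 * H + 1) := pow_succ _ _
    rw [h4, h5]
    have h6 : (0 : ℝ) < (2 * H + 1) ^ d := by positivity
    have h7 : (0 : ℝ) < L ^ U := by positivity
    have h8 : 2 * ((d : ℝ) + 1) * H * 2 ≤ (2 * H + 1) * (L * L) := by
      have h9 : 4 * ((d : ℝ) + 1) ≤ L := by linarith
      have h10 : L ≤ L * L := le_mul_of_one_le_right hL0.le hL1
      calc 2 * ((d : ℝ) + 1) * H * 2 = 4 * ((d : ℝ) + 1) * H := by ring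
        _ ≤ L * H := mul_le_mul_of_nonneg_right h9 hHp.le
        _ ≤ (L * L) * (2 * H + 1) := mul_le_mul h10 (by linarith) hHp.le (by positivity)
        _ = _ := mul_comm _ _
    calc 2 * ((d : ℝ) + 1) * H * (2 * H + 1) ^ d * (L ^ U * 2) = (2 * (d + 1) * H * 2) * ((2 * H + 1) ^ d * L ^ U) := by ring
      _ ≤ ((2 * H + 1) * (L * L)) * ((2 * H + 1) ^ d * L ^ U) := mul_le_mul_of_nonneg_right h8 (by positivity)
      _ = _ := by ring
  have t2 : (2 * (H : ℝ) + 1) ^ (d + 1) * (H / L ^ U1) / n ≤ (2 * H + 1) ^ (d + 1) / L ^ U / 2 := by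
    have h3 : (2 * (H : ℝ) + 1) ^ (d + 1) * (H / L ^ U1) / n ≤
        (2 * (H : ℝ) + 1) ^ (d + 1) * (H / L ^ U1) / (H / (2 * L ^ B1)) := by gcongr
    refine h3.trans ?_
    have h4 : L ^ U1 = L ^ B1 * L ^ U * L := by rw [hU1]; ring
    rw [h4]
    have h5 : (2 * (H : ℝ) + 1) ^ (d + 1) * (H / (L ^ B1 * L ^ U * L)) / (H / (2 * L ^ B1)) =
        (2 * (H : ℝ) + 1) ^ (d + 1) / L ^ U * (2 / L) := by
      field_simp
    rw [h5]
    have h6 : 2 / L ≤ 1 / 2 := by rw [div_le_div_iff₀ hL0 (by norm_num)]; linarith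
    have h7 : (0 : ℝ) ≤ (2 * (H : ℝ) + 1) ^ (d + 1) / L ^ U := by positivity
    nlinarith
  linarith

/-- the second moment of a weighted sum -/
theorem mom2 (F : ℤ → ℝ) (hF : WinB F) (hFb : ∀ v, |F v| ≤ 1) (d K U : ℕ) : ∃ H0 : ℕ, ∀ H : ℕ, H0 ≤ H →
    ∀ (Pt : Type) (val : (Fin (d + 1) → ℤ) → Pt → ℤ) (S : Finset Pt) (dep : Pt → Pt → Prop)
      [∀ P P', Decidable (dep P P')],
    (∀ P ∈ S, ∀ P' ∈ S, ¬ dep P P' → Sep d val (Real.log H ^ K) P P') →
    (∀ P ∈ S, ∀ a : Fin (d + 1) → ℤ, (∀ c, |a c| ≤ 2 * H) → |(val a P : ℝ)| ≤ H * Real.log H ^ K) →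
    ∀ w : Pt → ℝ, (∀ P, |w P| ≤ 1) →
    ∑ a ∈ QQ d H, (∑ P ∈ S, w P * F (val a P)) ^ 2 ≤
      (QQ d H).card * (∑ P ∈ S, (((S.filter (fun P' => dep P P')).card : ℕ) : ℝ) + (S.card : ℝ) ^ 2 / Real.log H ^ U) := by
  obtain ⟨H0, hH0⟩ := pair F hF hFb d K U
  refine ⟨H0, fun H hH Pt val S dep _ hsep hval w hw => ?_⟩
  have hp := hH0 H hH Pt val
  set L := Real.log H with hL
  have hL0 : 0 ≤ L := Real.log_natCast_nonneg H
  have e1 : ∑ a ∈ QQ d H, (∑ P ∈ S, w P * F (val a P)) ^ 2 =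
      ∑ P ∈ S, ∑ P' ∈ S, w P * w P' * ∑ a ∈ QQ d H, F (val a P) * F (val a P') := by
    have e2 : ∀ a ∈ QQ d H, (∑ P ∈ S, w P * F (val a P)) ^ 2 =
        ∑ P ∈ S, ∑ P' ∈ S, w P * w P' * (F (val a P) * F (val a P')) := by
      intro a _
      rw [sq, sum_mul_sum]
      refine sum_congr rfl fun P _ => sum_congr rfl fun P' _ => ?_
      ring
    rw [sum_congr rfl e2, sum_comm]
    refine sum_congr rfl fun P _ => ?_
    rw [sum_comm]
    refine sum_congr rfl fun P' _ => ?_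
    rw [mul_sum]
  rw [e1]
  have hQ0 : (0 : ℝ) ≤ (QQ d H).card := Nat.cast_nonneg _
  have h1 : ∀ P ∈ S, ∀ P' ∈ S, w P * w P' * ∑ a ∈ QQ d H, F (val a P) * F (val a P') ≤
      (QQ d H).card * ((if dep P P' then 1 else 0) + 1 / L ^ U) := by
    intro P hP P' hP'
    have hww : |w P * w P'| ≤ 1 := by
      rw [abs_mul]; exact mul_le_one₀ (hw _) (abs_nonneg _) (hw _)
    refine (le_abs_self _).trans ?_
    rw [abs_mul]
    have h0 : (0 : ℝ) ≤ 1 / L ^ U := by positivity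
    split_ifs with hd
    · have h2 : |∑ a ∈ QQ d H, F (val a P) * F (val a P')| ≤ (QQ d H).card := by
        refine (abs_sum_le_sum_abs _ _).trans ?_
        have h3 : ∀ a ∈ QQ d H, |F (val a P) * F (val a P')| ≤ 1 := by
          intro a _
          rw [abs_mul]; exact mul_le_one₀ (hFb _) (abs_nonneg _) (hFb _)
        refine (sum_le_sum h3).trans (le_of_eq ?_)
        rw [sum_const, nsmul_eq_mul, mul_one]
      calc |w P * w P'| * |∑ a ∈ QQ d H, F (val a P) * F (val a P')| ≤ 1 * (QQ d H).card :=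
            mul_le_mul hww h2 (abs_nonneg _) zero_le_one
        _ ≤ _ := by nlinarith
    · have h2 := hp P P' (hsep P hP P' hP' hd) (hval P hP) F hFb
      calc |w P * w P'| * |∑ a ∈ QQ d H, F (val a P) * F (val a P')| ≤ 1 * ((QQ d H).card / L ^ U) :=
            mul_le_mul hww h2 (abs_nonneg _) zero_le_one
        _ = _ := by ring
  refine (sum_le_sum fun P hP => sum_le_sum fun P' hP' => h1 P hP P' hP').trans (le_of_eq ?_)
  have e3 : ∀ P ∈ S, ∑ P' ∈ S, ((QQ d H).card : ℝ) * ((if dep P P' then 1 else 0) + 1 / L ^ U) =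
      (QQ d H).card * ((((S.filter (fun P' => dep P P')).card : ℕ) : ℝ) + S.card * (1 / L ^ U)) := by
    intro P _
    rw [← mul_sum, sum_add_distrib, sum_const, nsmul_eq_mul, sum_boole]
  rw [sum_congr rfl e3, ← mul_sum, sum_add_distrib, sum_const, nsmul_eq_mul]
  ring

end Pool.Agent.U708.BF
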