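import Mathlib
import Pool.Agent.U708.BF.Pair
import Pool.Agent.U708.BF.Count
import Pool.Agent.U708.BF.Dyad

/-!
# Project BF: the exceptional coefficients at one scale
-/

set_option autoImplicit false

namespace Pool.Agent.U708.BF

open Finset Filter
open Pool.Agent.TP975.RP
open Pool.Agent.TP975.LR

/-- the coordinates in the square -/
def vec (n : ℕ) (P : ℕ × ℕ) : ℤ × ℤ := ((P.1 : ℤ) - 1 - 2 ^ n, (P.2 : ℤ) - 1 - 2 ^ n)

/-- the sums over the dyadic rectangles of the square are at most `b` -/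
def GoodR (n : ℕ) (b : ℝ) (g : ℤ × ℤ → ℝ) : Prop :=
  ∀ k ≤ n + 1, ∀ i, (i + 1) * 2 ^ k ≤ 2 ^ (n + 1) → ∀ l ≤ n + 1, ∀ j, (j + 1) * 2 ^ l ≤ 2 ^ (n + 1) →
    |∑ u ∈ Ioc (i * 2 ^ k) ((i + 1) * 2 ^ k), ∑ v ∈ Ioc (j * 2 ^ l) ((j + 1) * 2 ^ l), g (vec n (u, v))| ≤ b

lemma sum_shift (n : ℕ) (f : ℤ → ℝ) (x x' : ℤ) (h1 : -(2 : ℤ) ^ n ≤ x) (h2 : x ≤ x' + 1) :
    ∑ z ∈ Icc x x', f z = ∑ u ∈ Ioc (x + 2 ^ n).toNat (x' + 1 + 2 ^ n).toNat, f ((u : ℤ) - 1 - 2 ^ n) := by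
  have hp : (0 : ℤ) < 2 ^ n := by positivity
  refine sum_nbij' (fun z => (z + 1 + 2 ^ n).toNat) (fun u => (u : ℤ) - 1 - 2 ^ n) ?_ ?_ ?_ ?_ ?_
  · intro z hz
    rw [mem_Icc] at hz
    rw [mem_Ioc]
    omega
  · intro u hu
    rw [mem_Ioc] at hu
    rw [mem_Icc]
    omega
  · intro z hz
    rw [mem_Icc] at hz
    omega
  · intro u hu
    rw [mem_Ioc] at hu
    omega
  · intro z hz
    rw [mem_Icc] at hz
    congr 1
    omega

/-- all rectangles of the square -/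
lemma good_rect (n : ℕ) (b : ℝ) (hb : 0 ≤ b) (g : ℤ × ℤ → ℝ) (h : GoodR n b g) (x x' y y' : ℤ)
    (hx : -(2 : ℤ) ^ n ≤ x) (hx' : x' < 2 ^ n) (hxx : x ≤ x' + 1) (hy : -(2 : ℤ) ^ n ≤ y) (hy' : y' < 2 ^ n) (hyy : y ≤ y' + 1) :
    |∑ P ∈ Icc x x' ×ˢ Icc y y', g P| ≤ 4 * ((n + 2) ^ 2 * b) := by
  have h1 := rects (fun u v => g (vec n (u, v))) (n + 1) b hb h (x + 2 ^ n).toNat (x' + 1 + 2 ^ n).toNat
    (y + 2 ^ n).toNat (y' + 1 + 2 ^ n).toNat (by omega) (by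
      have : ((x' + 1 + 2 ^ n).toNat : ℤ) ≤ 2 ^ (n + 1) := by rw [pow_succ]; omega
      exact_mod_cast this) (by omega) (by
      have : ((y' + 1 + 2 ^ n).toNat : ℤ) ≤ 2 ^ (n + 1) := by rw [pow_succ]; omega
      exact_mod_cast this)
  rw [sum_product]
  have e1 : ∑ z ∈ Icc x x', ∑ z' ∈ Icc y y', g (z, z') =
      ∑ u ∈ Ioc (x + 2 ^ n).toNat (x' + 1 + 2 ^ n).toNat, ∑ v ∈ Ioc (y + 2 ^ n).toNat (y' + 1 + 2 ^ n).toNat,
        g (vec n (u, v)) := by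
    rw [sum_shift n (fun z => ∑ z' ∈ Icc y y', g (z, z')) x x' hx hxx]
    refine sum_congr rfl fun u _ => ?_
    rw [sum_shift n (fun z' => g (_, z')) y y' hy hyy]
    rfl
  rw [e1]
  refine h1.trans (le_of_eq ?_)
  push_cast
  ring

lemma shift_le (n : ℕ) (f : ℤ → ℝ) (hf : ∀ z, 0 ≤ f z) :
    ∑ u ∈ Ioc (0 : ℕ) (2 ^ (n + 1)), f ((u : ℤ) - 1 - 2 ^ n) ≤ ∑ x ∈ Icc (-(2 : ℤ) ^ n) (2 ^ n), f x := by
  have hp : (0 : ℤ) < 2 ^ n := by positivity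
  have h1 := sum_shift n f (-(2 : ℤ) ^ n) (2 ^ n - 1) le_rfl (by omega)
  have e1 : (-(2 : ℤ) ^ n + 2 ^ n).toNat = 0 := by simp
  have e2 : ((2 : ℤ) ^ n - 1 + 1 + 2 ^ n).toNat = 2 ^ (n + 1) := by
    have : (2 : ℤ) ^ n - 1 + 1 + 2 ^ n = ((2 ^ (n + 1) : ℕ) : ℤ) := by push_cast; ring
    rw [this, Int.toNat_natCast]
  rw [e1, e2] at h1
  rw [← h1]
  apply sum_le_sum_of_subset_of_nonneg
  · intro z hz
    rw [mem_Icc] at hz ⊢
    omega
  · intro z _ _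
    exact hf z

/-- the families of values: nonparallel vectors are separated -/
def Fam (d H K A : ℕ) (val : (Fin (d + 1) → ℤ) → ℤ × ℤ → ℤ) : Prop :=
  (∀ P P' : ℤ × ℤ, |(P.1 : ℝ)| ≤ Real.log H ^ A → |(P.2 : ℝ)| ≤ Real.log H ^ A → |(P'.1 : ℝ)| ≤ Real.log H ^ A →
    |(P'.2 : ℝ)| ≤ Real.log H ^ A → P.1 ≠ 0 → P'.1 ≠ 0 → P.1 * P'.2 ≠ P'.1 * P.2 → Sep d val (Real.log H ^ K) P P') ∧
  ∀ P : ℤ × ℤ, |(P.1 : ℝ)| ≤ Real.log H ^ A → |(P.2 : ℝ)| ≤ Real.log H ^ A → ∀ a : Fin (d + 1) → ℤ,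
    (∀ c, |a c| ≤ 2 * H) → |(val a P : ℝ)| ≤ H * Real.log H ^ K

/-- the number of the vectors of the square parallel to a given one -/
noncomputable def nup (n : ℕ) (x y : ℤ) : ℝ :=
  ((((Icc (-(2 : ℤ) ^ n) (2 ^ n)) ×ˢ (Icc (-(2 : ℤ) ^ n) (2 ^ n))).filter (fun P : ℤ × ℤ => x * P.2 = P.1 * y)).card : ℝ)

lemma nup_nonneg (n : ℕ) (x y : ℤ) : 0 ≤ nup n x y := Nat.cast_nonneg _

lemma vec_bd (n : ℕ) (u : ℕ) (hu : u ∈ Ioc 0 (2 ^ (n + 1))) : -(2 : ℤ) ^ n ≤ (u : ℤ) - 1 - 2 ^ n ∧ (u : ℤ) - 1 - 2 ^ n ≤ 2 ^ n := by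
  rw [mem_Ioc] at hu
  have : (u : ℤ) ≤ 2 ^ (n + 1) := by exact_mod_cast hu.2
  rw [pow_succ] at this
  omega

set_option maxHeartbeats 1000000 in
theorem event (F : ℤ → ℝ) (hF : WinB F) (hFb : ∀ v, |F v| ≤ 1) (d K A : ℕ) : ∃ H0 : ℕ, ∀ H : ℕ, H0 ≤ H →
    ∀ val : (Fin (d + 1) → ℤ) → ℤ × ℤ → ℤ, Fam d H K A val → ∀ n : ℕ, (2 : ℝ) ^ n ≤ Real.log H ^ A →
    ∀ w : ℤ × ℤ → ℝ, (∀ P, |w P| ≤ 1) → ∀ b : ℝ, 0 < b → ∀ T : Finset (Fin (d + 1) → ℤ), T ⊆ QQ d H →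
    (∀ a ∈ T, ¬ GoodR n b (fun P => if P.1 = 0 then 0 else w P * F (val a P))) →
    (T.card : ℝ) * b ^ 2 ≤ (QQ d H).card * (25 * 4 ^ n * (n + 2) ^ 4) := by
  classical
  obtain ⟨H1, hH1⟩ := mom2 F hF hFb d K (6 * A + 2)
  obtain ⟨H2, hH2⟩ := eventually_atTop.1 (ev_log 8)
  refine ⟨max H1 H2, fun H hH val hfam n hn w hw b hb T hTQ hT => ?_⟩
  have hL8 := hH2 H ((le_max_right _ _).trans hH)
  have hmom := hH1 H ((le_max_left _ _).trans hH) (ℕ × ℕ) (fun a P => val a (vec n P))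
  set L := Real.log H with hL
  have hL0 : 0 < L := by linarith
  have hL1 : 1 ≤ L := by linarith
  have hQ0 : (0 : ℝ) ≤ (QQ d H).card := Nat.cast_nonneg _
  have hbd : ∀ z : ℤ, -(2 : ℤ) ^ n ≤ z → z ≤ 2 ^ n → |(z : ℝ)| ≤ L ^ A := by
    intro z h1 h2
    refine le_trans ?_ hn
    rw [abs_le]
    constructor
    · have : ((-(2 : ℤ) ^ n : ℤ) : ℝ) ≤ z := by exact_mod_cast h1
      push_cast at this
      exact this
    · have : (z : ℝ) ≤ ((2 ^ n : ℤ) : ℝ) := by exact_mod_cast h2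
      push_cast at this
      exact this
  set g : (Fin (d + 1) → ℤ) → ℤ × ℤ → ℝ := fun a P => if P.1 = 0 then 0 else w P * F (val a P) with hg
  set Z : (Fin (d + 1) → ℤ) → ℕ → ℕ → ℕ → ℕ → ℝ := fun a k i l j =>
    ∑ u ∈ Ioc (i * 2 ^ k) ((i + 1) * 2 ^ k), ∑ v ∈ Ioc (j * 2 ^ l) ((j + 1) * 2 ^ l), g a (vec n (u, v)) with hZ
  set ν : ℕ → ℕ → ℝ := fun u v => if (u : ℤ) - 1 - 2 ^ n = 0 then 0 else nup n ((u : ℤ) - 1 - 2 ^ n) ((v : ℤ) - 1 - 2 ^ n) with hν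
  have hν0 : ∀ u v, 0 ≤ ν u v := by
    intro u v
    rw [hν]
    simp only
    split_ifs
    · exact le_rfl
    · exact nup_nonneg _ _ _
  -- second moments of one rectangle
  have h1 : ∀ k ≤ n + 1, ∀ i, (i + 1) * 2 ^ k ≤ 2 ^ (n + 1) → ∀ l ≤ n + 1, ∀ j, (j + 1) * 2 ^ l ≤ 2 ^ (n + 1) →
      ∑ a ∈ QQ d H, Z a k i l j ^ 2 ≤ (QQ d H).card *
        (∑ u ∈ Ioc (i * 2 ^ k) ((i + 1) * 2 ^ k), ∑ v ∈ Ioc (j * 2 ^ l) ((j + 1) * 2 ^ l), ν u v +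
          (4 ^ (n + 1)) ^ 2 / L ^ (6 * A + 2)) := by
    intro k hk i hi l hl j hj
    set Bu := Ioc (i * 2 ^ k) ((i + 1) * 2 ^ k) with hBu
    set Bv := Ioc (j * 2 ^ l) ((j + 1) * 2 ^ l) with hBv
    have hBu' : Bu ⊆ Ioc 0 (2 ^ (n + 1)) := Ioc_subset_Ioc (Nat.zero_le _) hi
    have hBv' : Bv ⊆ Ioc 0 (2 ^ (n + 1)) := Ioc_subset_Ioc (Nat.zero_le _) hj
    set S := (Bu ×ˢ Bv).filter (fun P : ℕ × ℕ => (vec n P).1 ≠ 0) with hS
    have hSm : ∀ P ∈ S, (-(2 : ℤ) ^ n ≤ (vec n P).1 ∧ (vec n P).1 ≤ 2 ^ n) ∧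
        (-(2 : ℤ) ^ n ≤ (vec n P).2 ∧ (vec n P).2 ≤ 2 ^ n) ∧ (vec n P).1 ≠ 0 := by
      intro P hP
      rw [hS, mem_filter, mem_product] at hP
      exact ⟨vec_bd n P.1 (hBu' hP.1.1), vec_bd n P.2 (hBv' hP.1.2), hP.2⟩
    have h2 := hmom S (fun P P' => (vec n P).1 * (vec n P').2 = (vec n P').1 * (vec n P).2) (by
      intro P hP P' hP' hd
      obtain ⟨p1, p2, p3⟩ := hSm P hP
      obtain ⟨q1, q2, q3⟩ := hSm P' hP'
      obtain ⟨w', D, hD, hw', hmov⟩ := hfam.1 (vec n P) (vec n P') (hbd _ p1.1 p1.2) (hbd _ p2.1 p2.2) (hbd _ q1.1 q1.2)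
        (hbd _ q2.1 q2.2) p3 q3 hd
      exact ⟨w', D, hD, hw', hmov⟩) (by
      intro P hP a ha
      obtain ⟨p1, p2, p3⟩ := hSm P hP
      exact hfam.2 (vec n P) (hbd _ p1.1 p1.2) (hbd _ p2.1 p2.2) a ha)
      (fun P => w (vec n P)) (fun P => hw _)
    have e1 : ∀ a, Z a k i l j = ∑ P ∈ S, w (vec n P) * F (val a (vec n P)) := by
      intro a
      rw [hZ, hS, sum_filter, sum_product]
      refine sum_congr rfl fun u _ => sum_congr rfl fun v _ => ?_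
      rw [hg]
      simp only [ne_eq, ite_not]
    have e2 : ∑ a ∈ QQ d H, Z a k i l j ^ 2 = ∑ a ∈ QQ d H, (∑ P ∈ S, w (vec n P) * F (val a (vec n P))) ^ 2 :=
      sum_congr rfl fun a _ => by rw [e1]
    rw [e2]
    refine h2.trans (mul_le_mul_of_nonneg_left (add_le_add ?_ ?_) hQ0)
    · have e3 : ∑ u ∈ Bu, ∑ v ∈ Bv, ν u v = ∑ P ∈ S, nup n (vec n P).1 (vec n P).2 := by
        rw [hS, sum_filter, sum_product]
        refine sum_congr rfl fun u _ => sum_congr rfl fun v _ => ?_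
        rw [hν]
        by_cases h0 : (u : ℤ) - 1 - 2 ^ n = 0 <;> simp [vec, h0]
      rw [e3]
      refine sum_le_sum fun P hP => ?_
      unfold nup
      have hinj : Set.InjOn (vec n) ((S.filter (fun P' => (vec n P).1 * (vec n P').2 = (vec n P').1 * (vec n P).2) : Finset (ℕ × ℕ)) : Set (ℕ × ℕ)) := by
        intro p _ p' _ h
        unfold vec at h
        rw [Prod.ext_iff] at h
        simp only at h
        rw [Prod.ext_iff]
        omega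
      rw [← card_image_of_injOn hinj]
      have : (S.filter (fun P' => (vec n P).1 * (vec n P').2 = (vec n P').1 * (vec n P).2)).image (vec n) ⊆
          ((Icc (-(2 : ℤ) ^ n) (2 ^ n)) ×ˢ (Icc (-(2 : ℤ) ^ n) (2 ^ n))).filter
            (fun P' : ℤ × ℤ => (vec n P).1 * P'.2 = P'.1 * (vec n P).2) := by
        intro q hq
        rw [mem_image] at hq
        obtain ⟨P', hP', rfl⟩ := hq
        rw [mem_filter] at hP'
        obtain ⟨p1, p2, p3⟩ := hSm P' hP'.1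
        rw [mem_filter, mem_product, mem_Icc, mem_Icc]
        exact ⟨⟨p1, p2⟩, hP'.2⟩
      exact_mod_cast card_le_card this
    · apply div_le_div_of_nonneg_right _ (by positivity)
      apply pow_le_pow_left₀ (Nat.cast_nonneg _)
      have h3 : S.card ≤ 2 ^ (n + 1) * 2 ^ (n + 1) := by
        refine (card_filter_le _ _).trans ?_
        rw [card_product]
        have h4 := card_le_card hBu'
        have h5 := card_le_card hBv'
        have c1 : (Ioc 0 (2 ^ (n + 1))).card = 2 ^ (n + 1) := by rw [Nat.card_Ioc, Nat.sub_zero]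
        rw [c1] at h4 h5
        exact Nat.mul_le_mul h4 h5
      have h4 : (S.card : ℝ) ≤ 2 ^ (n + 1) * 2 ^ (n + 1) := by exact_mod_cast h3
      refine h4.trans (le_of_eq ?_)
      rw [← mul_pow]; norm_num
  -- one level
  have hblk : ∀ k ≤ n + 1, 2 ^ (n + 1 - k) * 2 ^ k = 2 ^ (n + 1) := by
    intro k hk
    rw [← pow_add]; congr 1; omega
  have hidx : ∀ k ≤ n + 1, ∀ i ∈ range (2 ^ (n + 1 - k)), (i + 1) * 2 ^ k ≤ 2 ^ (n + 1) := by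
    intro k hk i hi
    rw [mem_range] at hi
    rw [← hblk k hk]
    exact Nat.mul_le_mul_right _ hi
  have h2 : ∀ k ∈ range (n + 2), ∀ l ∈ range (n + 2),
      ∑ i ∈ range (2 ^ (n + 1 - k)), ∑ j ∈ range (2 ^ (n + 1 - l)), ∑ a ∈ QQ d H, Z a k i l j ^ 2 ≤
        (QQ d H).card * (25 * 4 ^ n * (n + 2) ^ 2) := by
    intro k hk l hl
    rw [mem_range] at hk hl
    have hk' : k ≤ n + 1 := by omega
    have hl' : l ≤ n + 1 := by omega
    refine (sum_le_sum fun i hi => sum_le_sum fun j hj => h1 k hk' i (hidx k hk' i hi) l hl' j (hidx l hl' j hj)).trans ?_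
    simp only [← mul_sum]
    apply mul_le_mul_of_nonneg_left _ hQ0
    simp only [sum_add_distrib, sum_const, card_range, nsmul_eq_mul]
    have e1 : ∑ i ∈ range (2 ^ (n + 1 - k)), ∑ j ∈ range (2 ^ (n + 1 - l)),
        ∑ u ∈ Ioc (i * 2 ^ k) ((i + 1) * 2 ^ k), ∑ v ∈ Ioc (j * 2 ^ l) ((j + 1) * 2 ^ l), ν u v =
        ∑ u ∈ Ioc 0 (2 ^ (n + 1)), ∑ v ∈ Ioc 0 (2 ^ (n + 1)), ν u v := by
      have e2 : ∀ i ∈ range (2 ^ (n + 1 - k)), ∑ j ∈ range (2 ^ (n + 1 - l)),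
          ∑ u ∈ Ioc (i * 2 ^ k) ((i + 1) * 2 ^ k), ∑ v ∈ Ioc (j * 2 ^ l) ((j + 1) * 2 ^ l), ν u v =
          ∑ u ∈ Ioc (i * 2 ^ k) ((i + 1) * 2 ^ k), ∑ v ∈ Ioc 0 (2 ^ (n + 1)), ν u v := by
        intro i _
        rw [sum_comm]
        refine sum_congr rfl fun u _ => ?_
        rw [blocks (fun v => ν u v), hblk l hl']
      rw [sum_congr rfl e2, blocks (fun u => ∑ v ∈ Ioc 0 (2 ^ (n + 1)), ν u v), hblk k hk']
    rw [e1]
    have e3 : ∑ u ∈ Ioc 0 (2 ^ (n + 1)), ∑ v ∈ Ioc 0 (2 ^ (n + 1)), ν u v ≤ 24 * 4 ^ n * (n + 1) ^ 2 := by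
      have s1 : ∀ u ∈ Ioc 0 (2 ^ (n + 1)), ∑ v ∈ Ioc 0 (2 ^ (n + 1)), ν u v ≤
          (fun x : ℤ => if x = 0 then 0 else ∑ y ∈ Icc (-(2 : ℤ) ^ n) (2 ^ n), nup n x y) ((u : ℤ) - 1 - 2 ^ n) := by
        intro u _
        have := shift_le n (fun y => if (u : ℤ) - 1 - 2 ^ n = 0 then 0 else nup n ((u : ℤ) - 1 - 2 ^ n) y) (by
          intro y
          split_ifs
          · exact le_rfl
          · exact nup_nonneg _ _ _)
        refine (le_trans (le_of_eq rfl) this).trans (le_of_eq ?_)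
        by_cases h0 : (u : ℤ) - 1 - 2 ^ n = 0 <;> simp [h0]
      refine (sum_le_sum s1).trans ?_
      refine (shift_le n (fun x : ℤ => if x = 0 then 0 else ∑ y ∈ Icc (-(2 : ℤ) ^ n) (2 ^ n), nup n x y) (by
        intro x
        split_ifs
        · exact le_rfl
        · exact sum_nonneg fun _ _ => nup_nonneg _ _ _)).trans ?_
      have s2 := par_total (2 ^ n)
      push_cast at s2
      have s3 : ∑ x ∈ Icc (-(2 : ℤ) ^ n) (2 ^ n), (if x = 0 then 0 else ∑ y ∈ Icc (-(2 : ℤ) ^ n) (2 ^ n), nup n x y) =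
          ∑ x ∈ (Icc (-(2 : ℤ) ^ n) (2 ^ n)).filter (fun x => x ≠ 0), ∑ y ∈ Icc (-(2 : ℤ) ^ n) (2 ^ n), nup n x y := by
        rw [sum_filter]
        refine sum_congr rfl fun x _ => ?_
        simp only [ne_eq, ite_not]
      rw [s3]
      refine (le_trans (le_of_eq ?_) s2).trans ?_
      · rfl
      · have s4 : Real.log (2 ^ n) ≤ n := by
          rw [Real.log_pow]
          have := Real.log_two_lt_d9
          have h0 : (0 : ℝ) ≤ n := Nat.cast_nonneg n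
          nlinarith
        have s5 : 0 ≤ Real.log ((2 : ℝ) ^ n) := Real.log_nonneg (one_le_pow₀ (by norm_num))
        have s6 : (1 + Real.log (2 ^ n)) ^ 2 ≤ ((n : ℝ) + 1) ^ 2 := by
          apply pow_le_pow_left₀ (by linarith)
          linarith
        have s7 : ((2 : ℝ) ^ n) ^ 2 = 4 ^ n := by rw [← pow_mul, mul_comm, pow_mul]; norm_num
        rw [s7]
        exact mul_le_mul_of_nonneg_left s6 (by positivity)
    have e4 : ((2 ^ (n + 1 - k) : ℕ) : ℝ) * (((2 ^ (n + 1 - l) : ℕ) : ℝ) * ((4 ^ (n + 1)) ^ 2 / L ^ (6 * A + 2))) ≤ 1 := by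
      have t1 : ((2 ^ (n + 1 - k) : ℕ) : ℝ) ≤ 2 ^ (n + 1) := by
        push_cast
        exact pow_le_pow_right₀ (by norm_num) (Nat.sub_le _ _)
      have t2 : ((2 ^ (n + 1 - l) : ℕ) : ℝ) ≤ 2 ^ (n + 1) := by
        push_cast
        exact pow_le_pow_right₀ (by norm_num) (Nat.sub_le _ _)
      have t3 : (0 : ℝ) ≤ (4 ^ (n + 1)) ^ 2 / L ^ (6 * A + 2) := by positivity
      calc _ ≤ (2 : ℝ) ^ (n + 1) * (2 ^ (n + 1) * ((4 ^ (n + 1)) ^ 2 / L ^ (6 * A + 2))) := by gcongr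
        _ = 64 * ((2 : ℝ) ^ n) ^ 6 / L ^ (6 * A + 2) := by
            have : ((4 : ℝ) ^ (n + 1)) = (2 ^ (n + 1)) ^ 2 := by rw [← pow_mul, mul_comm, pow_mul]; norm_num
            rw [this]
            ring
        _ ≤ 64 * (L ^ A) ^ 6 / L ^ (6 * A + 2) := by gcongr
        _ ≤ 1 := by
            rw [div_le_one (by positivity), ← pow_mul, pow_add, mul_comm A 6, mul_comm (64 : ℝ)]
            apply mul_le_mul_of_nonneg_left _ (by positivity)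
            nlinarith
    have hn0 : (0 : ℝ) ≤ n := Nat.cast_nonneg n
    have h4n : (1 : ℝ) ≤ 4 ^ n := one_le_pow₀ (by norm_num)
    refine (add_le_add e3 e4).trans ?_
    nlinarith [mul_nonneg hn0 (by linarith : (0 : ℝ) ≤ 4 ^ n), mul_nonneg (mul_nonneg hn0 hn0) (by linarith : (0 : ℝ) ≤ 4 ^ n)]
  -- all rectangles
  have h3 : ∑ a ∈ QQ d H, ∑ k ∈ range (n + 2), ∑ l ∈ range (n + 2), ∑ i ∈ range (2 ^ (n + 1 - k)),
      ∑ j ∈ range (2 ^ (n + 1 - l)), Z a k i l j ^ 2 ≤ (QQ d H).card * (25 * 4 ^ n * (n + 2) ^ 4) := by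
    have e1 : ∑ a ∈ QQ d H, ∑ k ∈ range (n + 2), ∑ l ∈ range (n + 2), ∑ i ∈ range (2 ^ (n + 1 - k)),
        ∑ j ∈ range (2 ^ (n + 1 - l)), Z a k i l j ^ 2 =
        ∑ k ∈ range (n + 2), ∑ l ∈ range (n + 2), ∑ i ∈ range (2 ^ (n + 1 - k)),
        ∑ j ∈ range (2 ^ (n + 1 - l)), ∑ a ∈ QQ d H, Z a k i l j ^ 2 := by
      rw [sum_comm]
      refine sum_congr rfl fun k _ => ?_
      rw [sum_comm]
      refine sum_congr rfl fun l _ => ?_
      rw [sum_comm]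
      refine sum_congr rfl fun i _ => ?_
      rw [sum_comm]
    rw [e1]
    refine (sum_le_sum fun k hk => sum_le_sum fun l hl => h2 k hk l hl).trans (le_of_eq ?_)
    simp only [sum_const, card_range, nsmul_eq_mul]
    push_cast
    ring
  have h4 : ∀ a ∈ T, b ^ 2 ≤ ∑ k ∈ range (n + 2), ∑ l ∈ range (n + 2), ∑ i ∈ range (2 ^ (n + 1 - k)),
      ∑ j ∈ range (2 ^ (n + 1 - l)), Z a k i l j ^ 2 := by
    intro a ha
    have hbad := hT a ha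
    unfold GoodR at hbad
    push Not at hbad
    obtain ⟨k, hk, i, hi, l, hl, j, hj, hgt⟩ := hbad
    have hi' : i ∈ range (2 ^ (n + 1 - k)) := by
      rw [mem_range]
      by_contra hcon
      push Not at hcon
      have : 2 ^ (n + 1 - k) * 2 ^ k + 2 ^ k ≤ (i + 1) * 2 ^ k := by nlinarith [Nat.mul_le_mul_right (2 ^ k) hcon]
      rw [hblk k hk] at this
      have : 0 < 2 ^ k := by positivity
      omega
    have hj' : j ∈ range (2 ^ (n + 1 - l)) := by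
      rw [mem_range]
      by_contra hcon
      push Not at hcon
      have : 2 ^ (n + 1 - l) * 2 ^ l + 2 ^ l ≤ (j + 1) * 2 ^ l := by nlinarith [Nat.mul_le_mul_right (2 ^ l) hcon]
      rw [hblk l hl] at this
      have : 0 < 2 ^ l := by positivity
      omega
    have q1 : b ^ 2 ≤ Z a k i l j ^ 2 := by
      rw [← sq_abs (Z a k i l j)]
      exact pow_le_pow_left₀ hb.le hgt.le 2
    refine q1.trans ?_
    refine (single_le_sum (f := fun j => Z a k i l j ^ 2) (fun _ _ => sq_nonneg _) hj').trans ?_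
    refine (single_le_sum (f := fun i => ∑ j ∈ range (2 ^ (n + 1 - l)), Z a k i l j ^ 2)
      (fun _ _ => sum_nonneg fun _ _ => sq_nonneg _) hi').trans ?_
    refine (single_le_sum (f := fun l => ∑ i ∈ range (2 ^ (n + 1 - k)), ∑ j ∈ range (2 ^ (n + 1 - l)), Z a k i l j ^ 2)
      (fun _ _ => sum_nonneg fun _ _ => sum_nonneg fun _ _ => sq_nonneg _) (mem_range.2 (by omega : l < n + 2))).trans ?_
    exact single_le_sum (f := fun k => ∑ l ∈ range (n + 2), ∑ i ∈ range (2 ^ (n + 1 - k)), ∑ j ∈ range (2 ^ (n + 1 - l)), Z a k i l j ^ 2)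
      (fun _ _ => sum_nonneg fun _ _ => sum_nonneg fun _ _ => sum_nonneg fun _ _ => sq_nonneg _) (mem_range.2 (by omega : k < n + 2))
  calc (T.card : ℝ) * b ^ 2 = ∑ _a ∈ T, b ^ 2 := by rw [sum_const, nsmul_eq_mul]
    _ ≤ ∑ a ∈ T, ∑ k ∈ range (n + 2), ∑ l ∈ range (n + 2), ∑ i ∈ range (2 ^ (n + 1 - k)),
        ∑ j ∈ range (2 ^ (n + 1 - l)), Z a k i l j ^ 2 := sum_le_sum h4
    _ ≤ ∑ a ∈ QQ d H, ∑ k ∈ range (n + 2), ∑ l ∈ range (n + 2), ∑ i ∈ range (2 ^ (n + 1 - k)),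
        ∑ j ∈ range (2 ^ (n + 1 - l)), Z a k i l j ^ 2 :=
        sum_le_sum_of_subset_of_nonneg hTQ fun _ _ _ =>
          sum_nonneg fun _ _ => sum_nonneg fun _ _ => sum_nonneg fun _ _ => sum_nonneg fun _ _ => sq_nonneg _
    _ ≤ _ := h3

end Pool.Agent.U708.BF
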