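import Mathlib
import Pool.Agent.U708.BF.Event
import Pool.Agent.TP975.LR.Lb3

/-!
# Project BF: systems of families, all rectangles of all translated lattices, all scales
-/

set_option autoImplicit false

namespace Pool.Agent.U708.BF

open Finset Filter
open Pool.Agent.TP975.RP
open Pool.Agent.TP975.LR

/-- the systems of coefficient vectors -/
noncomputable def BX (k d H : ℕ) : Finset (Fin k → Fin (d + 1) → ℤ) := Fintype.piFinset fun _ : Fin k => QQ d H

open Classical in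
/-- the summand -/
noncomputable def gg {k d : ℕ} (F : ℤ → ℝ) (val : Fin k → (Fin (d + 1) → ℤ) → ℤ × ℤ → ℤ) (I : Finset (Fin k)) (N : ℕ) (r s : ℤ)
    (e : Fin k → Fin (d + 1) → ℤ) (P : ℤ × ℤ) : ℝ :=
  if P.1 = 0 then 0 else (if (N : ℤ) ∣ P.1 - r ∧ (N : ℤ) ∣ P.2 - s then ∏ i ∈ I, F (val i (e i) P) else 0)

lemma prod_abs_le_one {ι : Type} (S : Finset ι) (f : ι → ℝ) (h : ∀ l ∈ S, |f l| ≤ 1) : |∏ l ∈ S, f l| ≤ 1 := by
  rw [abs_prod]
  exact prod_le_one (fun _ _ => abs_nonneg _) h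

/-- one event for systems -/
theorem event_k (F : ℤ → ℝ) (hF : WinB F) (hFb : ∀ v, |F v| ≤ 1) (k d K A : ℕ) : ∃ H0 : ℕ, ∀ H : ℕ, H0 ≤ H →
    ∀ val : Fin k → (Fin (d + 1) → ℤ) → ℤ × ℤ → ℤ, (∀ i, Fam d H K A (val i)) → ∀ n : ℕ, (2 : ℝ) ^ n ≤ Real.log H ^ A →
    ∀ (I : Finset (Fin k)), I.Nonempty → ∀ (N : ℕ) (r s : ℤ), ∀ b : ℝ, 0 < b →
    ∀ T : Finset (Fin k → Fin (d + 1) → ℤ), T ⊆ BX k d H → (∀ e, e ∈ T ↔ e ∈ BX k d H ∧ ¬ GoodR n b (gg F val I N r s e)) →
    (T.card : ℝ) * b ^ 2 ≤ (BX k d H).card * (25 * 4 ^ n * (n + 2) ^ 4) := by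
  classical
  obtain ⟨H0, hH0⟩ := event F hF hFb d K A
  refine ⟨H0, fun H hH val hfam n hn I hI N r s b hb T hTB hT => ?_⟩
  obtain ⟨i0, hi0⟩ := hI
  have hev := hH0 H hH (val i0) (hfam i0) n hn
  have hQpos : (0 : ℝ) < (QQ d H).card := by rw [card_QQ]; positivity
  have hb2 : 0 < b ^ 2 := by positivity
  have h1 := resample (QQ d H) i0 T hTB ((QQ d H).card * (25 * 4 ^ n * (n + 2) ^ 4) / b ^ 2) (by
    intro e _
    rw [le_div_iff₀ hb2]
    refine hev (fun P => if (N : ℤ) ∣ P.1 - r ∧ (N : ℤ) ∣ P.2 - s then ∏ i ∈ I.erase i0, F (val i (e i) P) else 0) ?_ b hb _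
      (filter_subset _ _) ?_
    · intro P
      split_ifs
      · exact prod_abs_le_one _ _ fun i _ => hFb _
      · rw [abs_zero]; exact zero_le_one
    · intro a ha hgood
      rw [mem_filter] at ha
      refine ((hT _).1 ha.2).2 ?_
      have e1 : gg F val I N r s (Function.update e i0 a) = fun P => if P.1 = 0 then 0 else
          (if (N : ℤ) ∣ P.1 - r ∧ (N : ℤ) ∣ P.2 - s then ∏ i ∈ I.erase i0, F (val i (e i) P) else 0) * F (val i0 a P) := by
        funext P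
        unfold gg
        by_cases h0 : P.1 = 0
        · rw [if_pos h0, if_pos h0]
        · rw [if_neg h0, if_neg h0]
          split_ifs
          · rw [← mul_prod_erase I _ hi0, Function.update_self, mul_comm]
            congr 1
            refine prod_congr rfl fun i hi => ?_
            rw [Function.update_of_ne (ne_of_mem_erase hi)]
          · rw [zero_mul]
      rw [e1]
      exact hgood)
  have h2 : (T.card : ℝ) * b ^ 2 * (QQ d H).card ≤ (BX k d H).card * (25 * 4 ^ n * (n + 2) ^ 4) * (QQ d H).card := by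
    have h3 := mul_le_mul_of_nonneg_right h1 hb2.le
    unfold BX
    calc (T.card : ℝ) * b ^ 2 * (QQ d H).card = (T.card : ℝ) * (QQ d H).card * b ^ 2 := by ring
      _ ≤ _ := h3
      _ = _ := by field_simp
  exact le_of_mul_le_mul_right h2 hQpos

lemma exists_scale (X : ℕ) (hX : 1 ≤ X) : ∃ n : ℕ, X < 2 ^ n ∧ 2 ^ n ≤ 2 * X := by
  refine ⟨Nat.log 2 X + 1, Nat.lt_pow_succ_log_self (by norm_num) X, ?_⟩
  rw [pow_succ, mul_comm]
  exact Nat.mul_le_mul_left 2 (Nat.pow_log_le_self 2 (by omega))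

set_option maxHeartbeats 1000000 in
/-- square root cancellation on all rectangles of all translated lattices at all scales -/
theorem main (F : ℤ → ℝ) (hF : WinB F) (hFb : ∀ v, |F v| ≤ 1) (k d K A : ℕ) (ε : ℝ) (hε : 0 < ε) :
    ∃ H0 : ℕ, ∀ H : ℕ, H0 ≤ H →
    ∀ val : Fin k → (Fin (d + 1) → ℤ) → ℤ × ℤ → ℤ, (∀ i, Fam d H K (A + 1) (val i)) →
    ∃ Bad ⊆ BX k d H, (Bad.card : ℝ) ≤ (BX k d H).card / Real.log H ^ (ε / 8) ∧
    ∀ e ∈ BX k d H, e ∉ Bad → ∀ I : Finset (Fin k), I.Nonempty → ∀ N : ℕ, 1 ≤ N → (N : ℝ) ≤ Real.log H ^ (ε / 8) →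
    ∀ (r s : ℤ) (X : ℕ), 1 ≤ X → (X : ℝ) ≤ Real.log H ^ A → ∀ x x' y y' : ℤ, -(X : ℤ) ≤ x → x' ≤ X → -(X : ℤ) ≤ y → y' ≤ X →
      |∑ P ∈ (Icc x x' ×ˢ Icc y y').filter (fun P : ℤ × ℤ => (N : ℤ) ∣ P.1 - r ∧ (N : ℤ) ∣ P.2 - s),
        ∏ i ∈ I, F (val i (e i) P)| ≤ X * Real.log H ^ ε := by
  classical
  obtain ⟨H1, hH1⟩ := event_k F hF hFb k d K (A + 1)
  obtain ⟨H2, hH2⟩ := eventually_atTop.1 (ev_log 8)
  obtain ⟨H3, hH3⟩ := eventually_atTop.1 (ev_loglog (ε / 20) (by positivity) ((25 * 2 ^ k) * (2 * ((A : ℝ) + 1) + 4)))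
  refine ⟨max H1 (max H2 H3), fun H hH val hfam => ?_⟩
  have hHa := (le_max_left _ _).trans hH
  have hHb := (le_max_left _ _).trans ((le_max_right _ _).trans hH)
  have hHc := (le_max_right _ _).trans ((le_max_right _ _).trans hH)
  have hL8 := hH2 H hHb
  have hll := hH3 H hHc
  have hek := hH1 H hHa val hfam
  set L := Real.log H with hL
  have hL0 : 0 < L := by linarith
  have hL1 : 1 ≤ L := by linarith
  have hlog0 : 0 ≤ Real.log L := Real.log_nonneg hL1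
  have hB0 : (0 : ℝ) ≤ (BX k d H).card := Nat.cast_nonneg _
  -- the number of the scales
  set J := ⌊2 * ((A : ℝ) + 1) * Real.log L⌋₊ with hJ
  have hJ1 : (J : ℝ) ≤ 2 * ((A : ℝ) + 1) * Real.log L := Nat.floor_le (by positivity)
  have hA0 : (0 : ℝ) ≤ A := Nat.cast_nonneg A
  have hJ2 : 25 * 2 ^ k * ((J : ℝ) + 3) ≤ L ^ (ε / 20) := by
    refine le_trans ?_ hll
    have h1 : (J : ℝ) + 3 ≤ (2 * ((A : ℝ) + 1) + 4) * (1 + Real.log L) := by nlinarith
    calc 25 * 2 ^ k * ((J : ℝ) + 3) ≤ 25 * 2 ^ k * ((2 * ((A : ℝ) + 1) + 4) * (1 + Real.log L)) :=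
          mul_le_mul_of_nonneg_left h1 (by positivity)
      _ = _ := by ring
  have hJ3 : ((J : ℝ) + 3) ≤ L ^ (ε / 20) := by
    refine le_trans ?_ hJ2
    have h1 : (1 : ℝ) ≤ 25 * 2 ^ k := by
      have : (1 : ℝ) ≤ 2 ^ k := one_le_pow₀ (by norm_num)
      linarith
    have h2 : (0 : ℝ) ≤ (J : ℝ) + 3 := by positivity
    nlinarith
  set R : ℝ := L ^ (ε / 2) with hR
  have hR0 : 0 < R := by positivity
  set Nm := ⌊L ^ (ε / 8)⌋₊ with hNm
  have hNm1 : (Nm : ℝ) ≤ L ^ (ε / 8) := Nat.floor_le (by positivity)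
  -- the exceptional set
  set T : ℕ → ℕ → ℕ → ℕ → Finset (Fin k) → Finset (Fin k → Fin (d + 1) → ℤ) := fun n N r s I =>
    (BX k d H).filter (fun e => ¬ GoodR n (2 ^ n * R) (gg F val I N r s e)) with hT
  set Idx := ((range (J + 1)).filter (fun n => (2 : ℝ) ^ n ≤ L ^ (A + 1))) ×ˢ ((Icc 1 Nm) ×ˢ (range Nm ×ˢ (range Nm ×ˢ
    ((univ : Finset (Finset (Fin k))).filter (fun I => I.Nonempty))))) with hIdx
  set Bad := Idx.biUnion (fun q => T q.1 q.2.1 q.2.2.1 q.2.2.2.1 q.2.2.2.2) with hBad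
  have hone : ∀ q ∈ Idx, ((T q.1 q.2.1 q.2.2.1 q.2.2.2.1 q.2.2.2.2).card : ℝ) ≤
      (BX k d H).card * (25 * ((J : ℝ) + 3) ^ 4 / R ^ 2) := by
    intro q hq
    rw [hIdx, mem_product, mem_filter, mem_range, mem_product, mem_product, mem_product, mem_filter] at hq
    obtain ⟨⟨hn1, hn2⟩, hN, hr, hs, -, hI⟩ := hq
    have h1 := hek q.1 hn2 q.2.2.2.2 hI q.2.1 q.2.2.1 q.2.2.2.1 (2 ^ q.1 * R) (by positivity)
      (T q.1 q.2.1 q.2.2.1 q.2.2.2.1 q.2.2.2.2) (filter_subset _ _) (fun e => by rw [hT, mem_filter])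
    have h2 : (0 : ℝ) < (2 ^ q.1 * R) ^ 2 := by positivity
    rw [← le_div_iff₀ h2] at h1
    refine h1.trans ?_
    rw [mul_div_assoc]
    apply mul_le_mul_of_nonneg_left _ hB0
    have h3 : (2 ^ q.1 * R : ℝ) ^ 2 = 4 ^ q.1 * R ^ 2 := by
      rw [mul_pow, ← pow_mul, mul_comm q.1 2, pow_mul]; norm_num
    rw [h3]
    have h4 : 25 * 4 ^ q.1 * ((q.1 : ℝ) + 2) ^ 4 / (4 ^ q.1 * R ^ 2) = 25 * ((q.1 : ℝ) + 2) ^ 4 / R ^ 2 := by
      field_simp
    rw [h4]
    have h5 : (q.1 : ℝ) + 2 ≤ (J : ℝ) + 3 := by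
      have : (q.1 : ℝ) ≤ J := by exact_mod_cast (by omega : q.1 ≤ J)
      linarith
    gcongr
  have hIdxc : (Idx.card : ℝ) ≤ ((J : ℝ) + 3) * L ^ (3 * (ε / 8)) * 2 ^ k := by
    have h1 : Idx.card ≤ (J + 1) * (Nm * (Nm * (Nm * 2 ^ k))) := by
      rw [hIdx, card_product, card_product, card_product, card_product]
      refine Nat.mul_le_mul ?_ (Nat.mul_le_mul ?_ (Nat.mul_le_mul ?_ (Nat.mul_le_mul ?_ ?_)))
      · exact (card_filter_le _ _).trans (by rw [card_range])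
      · rw [Nat.card_Icc, Nat.add_sub_cancel]
      · rw [card_range]
      · rw [card_range]
      · refine (card_filter_le _ _).trans ?_
        rw [card_univ, Fintype.card_finset, Fintype.card_fin]
    have h2 : (Idx.card : ℝ) ≤ (J + 1) * (Nm * (Nm * (Nm * 2 ^ k))) := by exact_mod_cast h1
    refine h2.trans ?_
    have h3 : L ^ (3 * (ε / 8)) = L ^ (ε / 8) * (L ^ (ε / 8) * L ^ (ε / 8)) := by
      rw [← Real.rpow_add hL0, ← Real.rpow_add hL0]; congr 1; ring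
    rw [h3]
    have h0 : (0 : ℝ) ≤ Nm := Nat.cast_nonneg _
    calc ((J : ℝ) + 1) * (Nm * (Nm * (Nm * 2 ^ k))) = ((J : ℝ) + 1) * (Nm * (Nm * Nm)) * 2 ^ k := by ring
      _ ≤ ((J : ℝ) + 3) * (L ^ (ε / 8) * (L ^ (ε / 8) * L ^ (ε / 8))) * 2 ^ k := by
          apply mul_le_mul_of_nonneg_right _ (by positivity)
          apply mul_le_mul (by linarith) _ (by positivity) (by positivity)
          gcongr
  refine ⟨Bad, ?_, ?_, ?_⟩
  · rw [hBad]
    exact biUnion_subset.2 fun q _ => filter_subset _ _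
  · have h1 : (Bad.card : ℝ) ≤ ∑ q ∈ Idx, ((T q.1 q.2.1 q.2.2.1 q.2.2.2.1 q.2.2.2.2).card : ℝ) := by
      rw [hBad]
      exact_mod_cast card_biUnion_le
    refine h1.trans ((sum_le_sum hone).trans ?_)
    rw [sum_const, nsmul_eq_mul]
    have h2 : (Idx.card : ℝ) * ((BX k d H).card * (25 * ((J : ℝ) + 3) ^ 4 / R ^ 2)) ≤
        (((J : ℝ) + 3) * L ^ (3 * (ε / 8)) * 2 ^ k) * ((BX k d H).card * (25 * ((J : ℝ) + 3) ^ 4 / R ^ 2)) :=
      mul_le_mul_of_nonneg_right hIdxc (by positivity)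
    refine h2.trans ?_
    have hR2 : R ^ 2 = L ^ ε := by
      rw [hR, ← Real.rpow_natCast, ← Real.rpow_mul hL0.le]; congr 1; push_cast; ring
    rw [hR2]
    have h3 : (25 * 2 ^ k * ((J : ℝ) + 3)) * ((J : ℝ) + 3) ^ 4 ≤ L ^ (ε / 4) := by
      have h4 : ((J : ℝ) + 3) ^ 4 ≤ (L ^ (ε / 20)) ^ 4 := pow_le_pow_left₀ (by positivity) hJ3 4
      calc (25 * 2 ^ k * ((J : ℝ) + 3)) * ((J : ℝ) + 3) ^ 4 ≤ L ^ (ε / 20) * (L ^ (ε / 20)) ^ 4 :=
            mul_le_mul hJ2 h4 (by positivity) (by positivity)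
        _ = (L ^ (ε / 20)) ^ 5 := by ring
        _ = L ^ (ε / 4) := by
            rw [← Real.rpow_natCast, ← Real.rpow_mul hL0.le]; congr 1; push_cast; ring
    have h4 : (((J : ℝ) + 3) * L ^ (3 * (ε / 8)) * 2 ^ k) * ((BX k d H).card * (25 * ((J : ℝ) + 3) ^ 4 / L ^ ε)) =
        (BX k d H).card * (((25 * 2 ^ k * ((J : ℝ) + 3)) * ((J : ℝ) + 3) ^ 4) * L ^ (3 * (ε / 8)) / L ^ ε) := by
      ring
    rw [h4, div_eq_mul_inv ((BX k d H).card : ℝ)]
    apply mul_le_mul_of_nonneg_left _ hB0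
    have h5 : ((25 * 2 ^ k * ((J : ℝ) + 3)) * ((J : ℝ) + 3) ^ 4) * L ^ (3 * (ε / 8)) / L ^ ε ≤
        L ^ (ε / 4) * L ^ (3 * (ε / 8)) / L ^ ε := by gcongr
    refine h5.trans ?_
    rw [← Real.rpow_add hL0, ← Real.rpow_sub hL0, ← Real.rpow_neg hL0.le]
    exact Real.rpow_le_rpow_of_exponent_le hL1 (by linarith)
  · intro e he hbad I hI N hN1 hNL r s X hX1 hXA x x' y y' hx hx' hy hy'
    have hX0 : (1 : ℝ) ≤ X := by exact_mod_cast hX1
    obtain ⟨n, hn1, hn2⟩ := exists_scale X hX1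
    have hn2' : (2 : ℝ) ^ n ≤ 2 * X := by exact_mod_cast hn2
    have hnL : (2 : ℝ) ^ n ≤ L ^ (A + 1) := by
      calc (2 : ℝ) ^ n ≤ 2 * X := hn2'
        _ ≤ 2 * L ^ A := by linarith
        _ ≤ L * L ^ A := by
            apply mul_le_mul_of_nonneg_right (by linarith) (by positivity)
        _ = _ := by ring
    have hnJ : n ≤ J := by
      apply Nat.le_floor
      have h1 := Real.log_le_log (by positivity) hnL
      rw [Real.log_pow, Real.log_pow] at h1
      push_cast at h1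
      have h2 : (1 / 2 : ℝ) ≤ Real.log 2 := by have := Real.log_two_gt_d9; linarith
      have h3 : (0 : ℝ) ≤ n := Nat.cast_nonneg n
      nlinarith
    have hNNm : N ≤ Nm := Nat.le_floor hNL
    have hN0 : (0 : ℤ) < N := by exact_mod_cast hN1
    -- reduced classes
    obtain ⟨r', hr'1, hr'2⟩ : ∃ r' : ℕ, r' < N ∧ (N : ℤ) ∣ r - r' := by
      refine ⟨(r % N).toNat, ?_, ?_⟩
      · have h1 := Int.emod_lt_of_pos r hN0
        have h2 := Int.emod_nonneg r hN0.ne'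
        omega
      · have h2 := Int.emod_nonneg r hN0.ne'
        rw [Int.toNat_of_nonneg h2]
        exact Int.dvd_self_sub_emod
    obtain ⟨s', hs'1, hs'2⟩ : ∃ s' : ℕ, s' < N ∧ (N : ℤ) ∣ s - s' := by
      refine ⟨(s % N).toNat, ?_, ?_⟩
      · have h1 := Int.emod_lt_of_pos s hN0
        have h2 := Int.emod_nonneg s hN0.ne'
        omega
      · have h2 := Int.emod_nonneg s hN0.ne'
        rw [Int.toNat_of_nonneg h2]
        exact Int.dvd_self_sub_emod
    have hcls : ∀ z t t' : ℤ, (N : ℤ) ∣ t - t' → ((N : ℤ) ∣ z - t ↔ (N : ℤ) ∣ z - t') := by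
      intro z t t' h
      constructor
      · intro h1
        have := dvd_add h1 h
        have e : z - t + (t - t') = z - t' := by ring
        rwa [e] at this
      · intro h1
        have := dvd_sub h1 h
        have e : z - t' - (t - t') = z - t := by ring
        rwa [e] at this
    have hggeq : gg F val I N r s e = gg F val I N (r' : ℤ) (s' : ℤ) e := by
      funext P
      unfold gg
      simp only [hcls P.1 r r' hr'2, hcls P.2 s s' hs'2]
    have hgood : GoodR n (2 ^ n * R) (gg F val I N r s e) := by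
      by_contra hcon
      apply hbad
      rw [hBad, mem_biUnion]
      refine ⟨(n, N, r', s', I), ?_, ?_⟩
      · rw [hIdx, mem_product, mem_filter, mem_range, mem_product, mem_product, mem_product, mem_filter]
        refine ⟨⟨by omega, hnL⟩, ?_, ?_, ?_, mem_univ _, hI⟩
        · rw [mem_Icc]; exact ⟨hN1, hNNm⟩
        · rw [mem_range]; simp only; omega
        · rw [mem_range]; simp only; omega
      · rw [hT, mem_filter]
        refine ⟨he, ?_⟩
        rw [← hggeq]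
        exact hcon
    have hXR : (0 : ℝ) ≤ X * L ^ ε := by positivity
    -- the sum over all the vectors
    rw [sum_filter]
    have esplit : ∀ P : ℤ × ℤ, (if (N : ℤ) ∣ P.1 - r ∧ (N : ℤ) ∣ P.2 - s then ∏ i ∈ I, F (val i (e i) P) else 0) =
        gg F val I N r s e P + (if P.1 = 0 then (if (N : ℤ) ∣ P.1 - r ∧ (N : ℤ) ∣ P.2 - s then ∏ i ∈ I, F (val i (e i) P) else 0) else 0) := by
      intro P
      unfold gg
      split_ifs <;> simp
    rw [sum_congr rfl fun P _ => esplit P, sum_add_distrib]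
    have hz : |∑ P ∈ Icc x x' ×ˢ Icc y y', (if P.1 = 0 then
        (if (N : ℤ) ∣ P.1 - r ∧ (N : ℤ) ∣ P.2 - s then ∏ i ∈ I, F (val i (e i) P) else 0) else 0)| ≤ 3 * X := by
      refine (abs_sum_le_sum_abs _ _).trans ?_
      have h1 : ∀ P ∈ Icc x x' ×ˢ Icc y y', |(if P.1 = 0 then
          (if (N : ℤ) ∣ P.1 - r ∧ (N : ℤ) ∣ P.2 - s then ∏ i ∈ I, F (val i (e i) P) else 0) else 0)| ≤
          if P.1 = 0 then (1 : ℝ) else 0 := by
        intro P _
        split_ifs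
        · exact prod_abs_le_one _ _ fun i _ => hFb _
        · rw [abs_zero]; exact zero_le_one
        · rw [abs_zero]
      refine (sum_le_sum h1).trans ?_
      rw [sum_boole]
      have h2 : (Icc x x' ×ˢ Icc y y').filter (fun P : ℤ × ℤ => P.1 = 0) ⊆ (Icc (-(X : ℤ)) X).image (fun v => ((0 : ℤ), v)) := by
        intro P hP
        rw [mem_filter, mem_product, mem_Icc, mem_Icc] at hP
        rw [mem_image]
        refine ⟨P.2, ?_, ?_⟩
        · rw [mem_Icc]; omega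
        · rw [Prod.ext_iff]; exact ⟨hP.2.symm, rfl⟩
      have h3 := (card_le_card h2).trans card_image_le
      rw [Int.card_Icc] at h3
      have h4 : ((Icc x x' ×ˢ Icc y y').filter (fun P : ℤ × ℤ => P.1 = 0)).card ≤ 3 * X := by omega
      exact_mod_cast h4
    have hmain : |∑ P ∈ Icc x x' ×ˢ Icc y y', gg F val I N r s e P| ≤ 4 * (((n : ℝ) + 2) ^ 2 * (2 ^ n * R)) := by
      have hb0 : 0 ≤ 2 ^ n * R := by positivity
      rcases le_or_gt x (x' + 1) with hxx | hxx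
      · rcases le_or_gt y (y' + 1) with hyy | hyy
        · have hXn : (X : ℤ) < 2 ^ n := by exact_mod_cast hn1
          exact good_rect n (2 ^ n * R) hb0 _ hgood x x' y y' (by omega) (by omega) hxx (by omega) (by omega) hyy
        · have : Icc y y' = ∅ := Icc_eq_empty (by omega)
          rw [this, product_empty, sum_empty, abs_zero]
          positivity
      · have : Icc x x' = ∅ := Icc_eq_empty (by omega)
        rw [this, empty_product, sum_empty, abs_zero]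
        positivity
    refine (abs_add_le _ _).trans ((add_le_add hmain hz).trans ?_)
    have hnJ' : (n : ℝ) ≤ J := by exact_mod_cast hnJ
    have hR1 : 1 ≤ R := Real.one_le_rpow hL1 (by positivity)
    have hJ0 : (0 : ℝ) ≤ J := Nat.cast_nonneg J
    have h2k : (1 : ℝ) ≤ 2 ^ k := one_le_pow₀ (by norm_num)
    calc 4 * (((n : ℝ) + 2) ^ 2 * (2 ^ n * R)) + 3 * X ≤ 4 * (((J : ℝ) + 3) ^ 2 * ((2 * X) * R)) + 3 * X := by
          have h1 : ((n : ℝ) + 2) ^ 2 ≤ ((J : ℝ) + 3) ^ 2 := pow_le_pow_left₀ (by positivity) (by linarith) 2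
          have h2 : ((n : ℝ) + 2) ^ 2 * (2 ^ n * R) ≤ ((J : ℝ) + 3) ^ 2 * ((2 * X) * R) :=
            mul_le_mul h1 (mul_le_mul_of_nonneg_right hn2' hR0.le) (by positivity) (by positivity)
          linarith
      _ ≤ X * ((25 * 2 ^ k * ((J : ℝ) + 3)) * ((J : ℝ) + 3) * R) := by
          have h1 : (9 : ℝ) ≤ ((J : ℝ) + 3) ^ 2 := by nlinarith
          have h2 : 3 * (X : ℝ) ≤ X * (((J : ℝ) + 3) ^ 2 * R) := by
            have h3 : 3 ≤ ((J : ℝ) + 3) ^ 2 * R := by nlinarith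
            nlinarith
          have h4 : (9 : ℝ) * (X * (((J : ℝ) + 3) ^ 2 * R)) ≤ 25 * 2 ^ k * (X * (((J : ℝ) + 3) ^ 2 * R)) := by
            apply mul_le_mul_of_nonneg_right _ (by positivity)
            linarith
          calc 4 * (((J : ℝ) + 3) ^ 2 * ((2 * X) * R)) + 3 * X ≤ 9 * (X * (((J : ℝ) + 3) ^ 2 * R)) := by linarith
            _ ≤ 25 * 2 ^ k * (X * (((J : ℝ) + 3) ^ 2 * R)) := h4
            _ = _ := by ring
      _ ≤ X * ((L ^ (ε / 20)) * (L ^ (ε / 20)) * R) := by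
          apply mul_le_mul_of_nonneg_left _ (by positivity)
          apply mul_le_mul_of_nonneg_right _ hR0.le
          exact mul_le_mul hJ2 hJ3 (by positivity) (by positivity)
      _ ≤ X * L ^ ε := by
          apply mul_le_mul_of_nonneg_left _ (by positivity)
          rw [hR, ← Real.rpow_add hL0, ← Real.rpow_add hL0]
          exact Real.rpow_le_rpow_of_exponent_le hL1 (by linarith)

end Pool.Agent.U708.BF
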