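import Mathlib
import Pool.Agent.U708.BF.Main

/-!
# Project BF: patterns of signs
-/

set_option autoImplicit false

namespace Pool.Agent.U708.BF

open Finset Filter
open Pool.Agent.TP975.RP
open Pool.Agent.TP975.LR

/-- the value at every vector with nonzero first coordinate determines the coefficient `j0` -/
def Det (d : ℕ) (val : (Fin (d + 1) → ℤ) → ℤ × ℤ → ℤ) : Prop :=
  ∃ j0 : Fin (d + 1), ∀ P : ℤ × ℤ, P.1 ≠ 0 → ∀ (a : Fin (d + 1) → ℤ) (t t' : ℤ),
    val (Function.update a j0 t) P = val (Function.update a j0 t') P → t = t'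

lemma few_zero (d H : ℕ) (val : (Fin (d + 1) → ℤ) → ℤ × ℤ → ℤ) (hdet : Det d val) (P : ℤ × ℤ) (hP : P.1 ≠ 0) :
    (((QQ d H).filter (fun a => val a P = 0)).card : ℝ) * (2 * H + 1) ≤ (QQ d H).card := by
  classical
  obtain ⟨j0, hj0⟩ := hdet
  have h1 := resample (Icc (-(H : ℤ)) H) j0 ((QQ d H).filter (fun a => val a P = 0)) (filter_subset _ _) 1 (by
    intro e he
    have : ((Icc (-(H : ℤ)) H).filter (fun a => Function.update e j0 a ∈ (QQ d H).filter (fun a => val a P = 0))).card ≤ 1 := by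
      rw [card_le_one]
      intro a ha b hb
      rw [mem_filter, mem_filter] at ha hb
      exact hj0 P hP e a b (by rw [ha.2.2, hb.2.2])
    exact_mod_cast this)
  rw [Int.card_Icc] at h1
  have e1 : (((H : ℤ) + 1 - -(H : ℤ)).toNat : ℝ) = 2 * H + 1 := by
    have : ((H : ℤ) + 1 - -(H : ℤ)).toNat = 2 * H + 1 := by omega
    rw [this]; push_cast; ring
  rw [e1, mul_one] at h1
  exact h1

open Classical in
/-- the systems with a zero in the square -/
noncomputable def Zs (k d H M : ℕ) (val : Fin k → (Fin (d + 1) → ℤ) → ℤ × ℤ → ℤ) : Finset (Fin k → Fin (d + 1) → ℤ) :=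
  (BX k d H).filter (fun e => ∃ i, ∃ P ∈ Icc (-(M : ℤ)) M ×ˢ Icc (-(M : ℤ)) M, P.1 ≠ 0 ∧ val i (e i) P = 0)

lemma Zs_card (k d H M : ℕ) (val : Fin k → (Fin (d + 1) → ℤ) → ℤ × ℤ → ℤ) (hdet : ∀ i, Det d (val i)) :
    ((Zs k d H M val).card : ℝ) * (2 * H + 1) ≤ (BX k d H).card * (k * (2 * M + 1) ^ 2) := by
  classical
  have hQpos : (0 : ℝ) < (QQ d H).card := by rw [card_QQ]; positivity
  set Sq := (Icc (-(M : ℤ)) M ×ˢ Icc (-(M : ℤ)) M).filter (fun P : ℤ × ℤ => P.1 ≠ 0) with hSq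
  have hsub : Zs k d H M val ⊆ (univ : Finset (Fin k)).biUnion (fun i => Sq.biUnion (fun P =>
      (BX k d H).filter (fun e => val i (e i) P = 0))) := by
    intro e he
    unfold Zs at he
    rw [mem_filter] at he
    obtain ⟨he, i, P, hP, hP0, hz⟩ := he
    rw [mem_biUnion]
    refine ⟨i, mem_univ _, ?_⟩
    rw [mem_biUnion]
    refine ⟨P, ?_, ?_⟩
    · rw [hSq, mem_filter]; exact ⟨hP, hP0⟩
    · rw [mem_filter]; exact ⟨he, hz⟩
  have hone : ∀ i, ∀ P ∈ Sq, (((BX k d H).filter (fun e => val i (e i) P = 0)).card : ℝ) * (2 * H + 1) ≤ (BX k d H).card := by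
    intro i P hP
    have hP0 : P.1 ≠ 0 := by rw [hSq, mem_filter] at hP; exact hP.2
    have h1 := resample (QQ d H) i ((BX k d H).filter (fun e => val i (e i) P = 0)) (filter_subset _ _)
      ((((QQ d H).filter (fun a => val i a P = 0)).card : ℝ)) (by
      intro e _
      have : ((QQ d H).filter (fun a => Function.update e i a ∈ (BX k d H).filter (fun e => val i (e i) P = 0))).card ≤
          ((QQ d H).filter (fun a => val i a P = 0)).card := by
        apply card_le_card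
        intro a ha
        rw [mem_filter, mem_filter, Function.update_self] at ha
        rw [mem_filter]
        exact ⟨ha.1, ha.2.2⟩
      exact_mod_cast this)
    have h2 := few_zero d H (val i) (hdet i) P hP0
    have h3 : (0 : ℝ) ≤ (BX k d H).card := Nat.cast_nonneg _
    have h4 : (((BX k d H).filter (fun e => val i (e i) P = 0)).card : ℝ) * (2 * H + 1) * (QQ d H).card ≤
        (BX k d H).card * (QQ d H).card := by
      calc (((BX k d H).filter (fun e => val i (e i) P = 0)).card : ℝ) * (2 * H + 1) * (QQ d H).card =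
          ((((BX k d H).filter (fun e => val i (e i) P = 0)).card : ℝ) * (QQ d H).card) * (2 * H + 1) := by ring
        _ ≤ ((BX k d H).card * (((QQ d H).filter (fun a => val i a P = 0)).card : ℝ)) * (2 * H + 1) :=
            mul_le_mul_of_nonneg_right h1 (by positivity)
        _ = (BX k d H).card * ((((QQ d H).filter (fun a => val i a P = 0)).card : ℝ) * (2 * H + 1)) := by ring
        _ ≤ _ := mul_le_mul_of_nonneg_left h2 h3
    exact le_of_mul_le_mul_right h4 hQpos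
  have h1 : ((Zs k d H M val).card : ℝ) ≤ ∑ i : Fin k, ∑ P ∈ Sq, (((BX k d H).filter (fun e => val i (e i) P = 0)).card : ℝ) := by
    have h2 := (card_le_card hsub).trans card_biUnion_le
    have h3 : ∑ i : Fin k, (Sq.biUnion (fun P => (BX k d H).filter (fun e => val i (e i) P = 0))).card ≤
        ∑ i : Fin k, ∑ P ∈ Sq, ((BX k d H).filter (fun e => val i (e i) P = 0)).card :=
      sum_le_sum fun i _ => card_biUnion_le
    exact_mod_cast h2.trans h3
  have h2 : ((Zs k d H M val).card : ℝ) * (2 * H + 1) ≤ ∑ i : Fin k, ∑ P ∈ Sq, ((BX k d H).card : ℝ) := by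
    calc ((Zs k d H M val).card : ℝ) * (2 * H + 1) ≤
        (∑ i : Fin k, ∑ P ∈ Sq, (((BX k d H).filter (fun e => val i (e i) P = 0)).card : ℝ)) * (2 * H + 1) :=
          mul_le_mul_of_nonneg_right h1 (by positivity)
      _ = ∑ i : Fin k, ∑ P ∈ Sq, (((BX k d H).filter (fun e => val i (e i) P = 0)).card : ℝ) * (2 * H + 1) := by
          rw [sum_mul]; exact sum_congr rfl fun i _ => sum_mul _ _ _
      _ ≤ _ := sum_le_sum fun i _ => sum_le_sum fun P hP => hone i P hP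
  refine h2.trans ?_
  have h3 : (Sq.card : ℝ) ≤ (2 * M + 1) ^ 2 := by
    have h4 : Sq.card ≤ (2 * M + 1) ^ 2 := by
      rw [hSq]
      refine (card_filter_le _ _).trans (le_of_eq ?_)
      rw [card_product, Int.card_Icc]
      have : ((M : ℤ) + 1 - -(M : ℤ)).toNat = 2 * M + 1 := by omega
      rw [this]; ring
    exact_mod_cast h4
  have h4 : (0 : ℝ) ≤ (BX k d H).card := Nat.cast_nonneg _
  calc ∑ i : Fin k, ∑ P ∈ Sq, ((BX k d H).card : ℝ) = k * (Sq.card * (BX k d H).card) := by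
        rw [sum_const, sum_const, card_univ, Fintype.card_fin, nsmul_eq_mul, nsmul_eq_mul]
    _ ≤ k * ((2 * M + 1) ^ 2 * (BX k d H).card) := by gcongr
    _ = _ := by ring

/-- the indicator of a pattern of signs -/
lemma pattern_ind {k : ℕ} (f ε : Fin k → ℝ) (hf : ∀ i, f i = 1 ∨ f i = -1) (hε : ∀ i, ε i = 1 ∨ ε i = -1)
    [Decidable (∀ i, f i = ε i)] :
    (if (∀ i, f i = ε i) then (1 : ℝ) else 0) = (1 / 2) ^ k * ∑ I : Finset (Fin k), ∏ i ∈ I, (ε i * f i) := by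
  classical
  have h1 : ∑ I : Finset (Fin k), ∏ i ∈ I, (ε i * f i) = ∏ i : Fin k, (1 + ε i * f i) := by
    rw [prod_one_add, ← powerset_univ]
  rw [h1]
  have h2 : ((1 / 2 : ℝ)) ^ k * ∏ i : Fin k, (1 + ε i * f i) = ∏ i : Fin k, (if f i = ε i then (1 : ℝ) else 0) := by
    have : ((1 / 2 : ℝ)) ^ k = ∏ _i : Fin k, (1 / 2 : ℝ) := by rw [prod_const, card_univ, Fintype.card_fin]
    rw [this, ← prod_mul_distrib]
    refine prod_congr rfl fun i _ => ?_
    rcases hf i with h | h <;> rcases hε i with h' | h' <;> rw [h, h'] <;> norm_num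
  rw [h2]
  split_ifs with h
  · rw [prod_congr rfl fun i _ => if_pos (h i)]
    simp
  · push Not at h
    obtain ⟨i, hi⟩ := h
    exact (prod_eq_zero (mem_univ i) (if_neg hi)).symm

/-- few vectors of the square have first coordinate zero -/
lemma col_card (X : ℕ) (hX : 1 ≤ X) (S : Finset (ℤ × ℤ)) (hS : ∀ P ∈ S, -(X : ℤ) ≤ P.2 ∧ P.2 ≤ X) :
    ((S.filter (fun P => P.1 = 0)).card : ℝ) ≤ 3 * X := by
  have h2 : S.filter (fun P : ℤ × ℤ => P.1 = 0) ⊆ (Icc (-(X : ℤ)) X).image (fun v => ((0 : ℤ), v)) := by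
    intro P hP
    rw [mem_filter] at hP
    rw [mem_image]
    refine ⟨P.2, ?_, ?_⟩
    · rw [mem_Icc]; exact hS P hP.1
    · rw [Prod.ext_iff]; exact ⟨hP.2.symm, rfl⟩
  have h3 := (card_le_card h2).trans card_image_le
  rw [Int.card_Icc] at h3
  have h4 : (S.filter (fun P : ℤ × ℤ => P.1 = 0)).card ≤ 3 * X := by omega
  exact_mod_cast h4

set_option maxHeartbeats 1000000 in
open Classical in
/-- products and patterns of signs -/
theorem main2 (F : ℤ → ℝ) (hF : WinB F) (hF1 : ∀ v, v ≠ 0 → F v = 1 ∨ F v = -1) (hF0 : F 0 = 0) (k d K A : ℕ)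
    (ε : ℝ) (hε : 0 < ε) :
    ∃ H0 : ℕ, ∀ H : ℕ, H0 ≤ H →
    ∀ val : Fin k → (Fin (d + 1) → ℤ) → ℤ × ℤ → ℤ, (∀ i, Fam d H K (A + 1) (val i)) → (∀ i, Det d (val i)) →
    ∃ Bad ⊆ BX k d H, (Bad.card : ℝ) ≤ (BX k d H).card / Real.log H ^ (ε / 32) ∧
    ∀ e ∈ BX k d H, e ∉ Bad → ∀ N : ℕ, 1 ≤ N → (N : ℝ) ≤ Real.log H ^ (ε / 32) →
    ∀ (r s : ℤ) (X : ℕ), 1 ≤ X → (X : ℝ) ≤ Real.log H ^ A → ∀ x x' y y' : ℤ, -(X : ℤ) ≤ x → x' ≤ X → -(X : ℤ) ≤ y → y' ≤ X →
      (∀ I : Finset (Fin k), I.Nonempty → |∑ P ∈ (Icc x x' ×ˢ Icc y y').filter (fun P : ℤ × ℤ => (N : ℤ) ∣ P.1 - r ∧ (N : ℤ) ∣ P.2 - s),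
        ∏ i ∈ I, F (val i (e i) P)| ≤ X * Real.log H ^ ε) ∧
      ∀ δ : Fin k → ℝ, (∀ i, δ i = 1 ∨ δ i = -1) →
        |((((Icc x x' ×ˢ Icc y y').filter (fun P : ℤ × ℤ => (N : ℤ) ∣ P.1 - r ∧ (N : ℤ) ∣ P.2 - s)).filter
          (fun P => ∀ i, F (val i (e i) P) = δ i)).card : ℝ) -
          (1 / 2) ^ k * (((Icc x x' ×ˢ Icc y y').filter (fun P : ℤ × ℤ => (N : ℤ) ∣ P.1 - r ∧ (N : ℤ) ∣ P.2 - s)).card : ℝ)| ≤
        X * Real.log H ^ ε := by
  have hFb : ∀ v, |F v| ≤ 1 := by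
    intro v
    by_cases hv : v = 0
    · rw [hv, hF0, abs_zero]; exact zero_le_one
    · rcases hF1 v hv with h | h <;> rw [h] <;> simp
  obtain ⟨H1, hH1⟩ := main F hF hFb k d K A (ε / 2) (by positivity)
  obtain ⟨H2, hH2⟩ := eventually_atTop.1 (ev_log 8)
  obtain ⟨H3, hH3⟩ := eventually_atTop.1 (ev_rpow (ε / 32) (by positivity) 2)
  obtain ⟨H4, hH4⟩ := eventually_atTop.1 (ev_rpow (ε / 2) (by positivity) 10)
  obtain ⟨H5, hH5⟩ := eventually_atTop.1 (ev_pow (2 * A + ⌈ε⌉₊) (9 * k))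
  refine ⟨max H1 (max H2 (max H3 (max H4 H5))), fun H hH val hfam hdet => ?_⟩
  have ha := (le_max_left _ _).trans hH
  have hb := (le_max_left _ _).trans ((le_max_right _ _).trans hH)
  have hc := (le_max_left _ _).trans ((le_max_right _ _).trans ((le_max_right _ _).trans hH))
  have hd := (le_max_left _ _).trans ((le_max_right _ _).trans ((le_max_right _ _).trans ((le_max_right _ _).trans hH)))
  have he' := (le_max_right _ _).trans ((le_max_right _ _).trans ((le_max_right _ _).trans ((le_max_right _ _).trans hH)))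
  have hL8 := hH2 H hb
  have hc2 := hH3 H hc
  have hd10 := hH4 H hd
  have hpow := hH5 H he'
  obtain ⟨Bad1, hB1s, hB1c, hB1⟩ := hH1 H ha val hfam
  set L := Real.log H with hL
  have hL0 : 0 < L := by linarith
  have hL1 : 1 ≤ L := by linarith
  have hB0 : (0 : ℝ) ≤ (BX k d H).card := Nat.cast_nonneg _
  set M := ⌊L ^ A⌋₊ with hM
  have hM1 : (M : ℝ) ≤ L ^ A := Nat.floor_le (by positivity)
  refine ⟨Bad1 ∪ Zs k d H M val, ?_, ?_, ?_⟩
  · exact union_subset hB1s (filter_subset _ _)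
  · have hz := Zs_card k d H M val hdet
    have hHp : (0 : ℝ) < 2 * H + 1 := by positivity
    have hz2 : ((Zs k d H M val).card : ℝ) ≤ (BX k d H).card / L ^ (ε / 16) := by
      rw [← le_div_iff₀ hHp] at hz
      refine hz.trans ?_
      rw [mul_div_assoc, div_eq_mul_inv ((BX k d H).card : ℝ) (L ^ (ε / 16))]
      apply mul_le_mul_of_nonneg_left _ hB0
      rw [← one_div, div_le_div_iff₀ hHp (by positivity)]
      have h1 : (2 * (M : ℝ) + 1) ^ 2 ≤ 9 * L ^ (2 * A) := by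
        have h2 : (1 : ℝ) ≤ L ^ A := one_le_pow₀ hL1
        have h3 : (2 * (M : ℝ) + 1) ≤ 3 * L ^ A := by linarith
        calc (2 * (M : ℝ) + 1) ^ 2 ≤ (3 * L ^ A) ^ 2 := pow_le_pow_left₀ (by positivity) h3 2
          _ = 9 * L ^ (2 * A) := by rw [mul_pow, ← pow_mul, mul_comm A 2]; norm_num
      have h2 : L ^ (ε / 16) ≤ L ^ ⌈ε⌉₊ := by
        rw [← Real.rpow_natCast]
        apply Real.rpow_le_rpow_of_exponent_le hL1
        have := Nat.le_ceil ε
        linarith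
      calc (k : ℝ) * (2 * M + 1) ^ 2 * L ^ (ε / 16) ≤ k * (9 * L ^ (2 * A)) * L ^ ⌈ε⌉₊ := by gcongr
        _ = 9 * k * L ^ (2 * A + ⌈ε⌉₊) := by rw [pow_add]; ring
        _ ≤ H := hpow
        _ ≤ 1 * (2 * H + 1) := by have : (0 : ℝ) ≤ H := Nat.cast_nonneg H; linarith
    have h1 : ((Bad1 ∪ Zs k d H M val).card : ℝ) ≤ Bad1.card + (Zs k d H M val).card := by exact_mod_cast card_union_le _ _
    have e16 : ε / 2 / 8 = ε / 16 := by ring
    rw [e16] at hB1c
    refine h1.trans ((add_le_add hB1c hz2).trans ?_)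
    have h2 : L ^ (ε / 16) = L ^ (ε / 32) * L ^ (ε / 32) := by rw [← Real.rpow_add hL0]; congr 1; ring
    rw [h2, ← two_mul, mul_div_assoc', div_le_div_iff₀ (by positivity) (by positivity)]
    have h3 : (0 : ℝ) ≤ (BX k d H).card * L ^ (ε / 32) := by positivity
    nlinarith
  · intro e he hbad N hN1 hNL r s X hX1 hXA x x' y y' hx hx' hy hy'
    rw [mem_union, not_or] at hbad
    have hX0 : (1 : ℝ) ≤ X := by exact_mod_cast hX1
    have hNL' : (N : ℝ) ≤ L ^ (ε / 2 / 8) := hNL.trans (Real.rpow_le_rpow_of_exponent_le hL1 (by linarith))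
    have hprod := fun I hI => hB1 e he hbad.1 I hI N hN1 hNL' r s X hX1 hXA x x' y y' hx hx' hy hy'
    set S := (Icc x x' ×ˢ Icc y y').filter (fun P : ℤ × ℤ => (N : ℤ) ∣ P.1 - r ∧ (N : ℤ) ∣ P.2 - s) with hS
    have hle : L ^ (ε / 2) ≤ L ^ ε := Real.rpow_le_rpow_of_exponent_le hL1 (by linarith)
    refine ⟨fun I hI => (hprod I hI).trans (mul_le_mul_of_nonneg_left hle (by positivity)), ?_⟩
    intro δ hδ
    have hSm : ∀ P ∈ S, (-(X : ℤ) ≤ P.1 ∧ P.1 ≤ X) ∧ (-(X : ℤ) ≤ P.2 ∧ P.2 ≤ X) := by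
      intro P hP
      rw [hS, mem_filter, mem_product, mem_Icc, mem_Icc] at hP
      omega
    have hcol := col_card X hX1 S (fun P hP => (hSm P hP).2)
    set S0 := S.filter (fun P => P.1 = 0) with hS0
    set S1 := S.filter (fun P => ¬ P.1 = 0) with hS1
    have hXM : X ≤ M := Nat.le_floor hXA
    have hval : ∀ P ∈ S1, ∀ i, F (val i (e i) P) = 1 ∨ F (val i (e i) P) = -1 := by
      intro P hP i
      rw [hS1, mem_filter] at hP
      apply hF1
      intro hz
      apply hbad.2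
      unfold Zs
      rw [mem_filter]
      refine ⟨he, i, P, ?_, hP.2, hz⟩
      have := hSm P hP.1
      rw [mem_product, mem_Icc, mem_Icc]
      omega
    -- the sums over `S1`
    have hsplit : ∀ f : ℤ × ℤ → ℝ, ∑ P ∈ S, f P = ∑ P ∈ S0, f P + ∑ P ∈ S1, f P := fun f =>
      (sum_filter_add_sum_filter_not S (fun P => P.1 = 0) f).symm
    have hS1sum : ∀ I : Finset (Fin k), I.Nonempty → |∑ P ∈ S1, ∏ i ∈ I, F (val i (e i) P)| ≤ X * L ^ (ε / 2) + 3 * X := by
      intro I hI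
      have h1 := hsplit (fun P => ∏ i ∈ I, F (val i (e i) P))
      have h2 : |∑ P ∈ S0, ∏ i ∈ I, F (val i (e i) P)| ≤ 3 * X := by
        refine (abs_sum_le_sum_abs _ _).trans ?_
        refine (sum_le_sum fun P _ => prod_abs_le_one I (fun i => F (val i (e i) P)) fun i _ => hFb _).trans ?_
        rw [sum_const, nsmul_eq_mul, mul_one]
        exact hcol
      have h3 : ∑ P ∈ S1, ∏ i ∈ I, F (val i (e i) P) = ∑ P ∈ S, ∏ i ∈ I, F (val i (e i) P) - ∑ P ∈ S0, ∏ i ∈ I, F (val i (e i) P) := by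
        rw [h1]; ring
      rw [h3]
      exact (abs_sub _ _).trans (add_le_add (hprod I hI) h2)
    have hcount : ((S.filter (fun P => ∀ i, F (val i (e i) P) = δ i)).card : ℝ) =
        ∑ P ∈ S0, (if (∀ i, F (val i (e i) P) = δ i) then (1 : ℝ) else 0) +
        ∑ P ∈ S1, (if (∀ i, F (val i (e i) P) = δ i) then (1 : ℝ) else 0) := by
      rw [← hsplit, sum_boole]
    have hS1c : ∑ P ∈ S1, (if (∀ i, F (val i (e i) P) = δ i) then (1 : ℝ) else 0) =
        (1 / 2) ^ k * (S1.card : ℝ) + (1 / 2) ^ k * ∑ I ∈ (univ : Finset (Finset (Fin k))).erase ∅,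
          (∏ i ∈ I, δ i) * ∑ P ∈ S1, ∏ i ∈ I, F (val i (e i) P) := by
      have h1 : ∀ P ∈ S1, (if (∀ i, F (val i (e i) P) = δ i) then (1 : ℝ) else 0) =
          (1 / 2) ^ k * ∑ I : Finset (Fin k), ∏ i ∈ I, (δ i * F (val i (e i) P)) := fun P hP =>
        pattern_ind _ δ (hval P hP) hδ
      rw [sum_congr rfl h1, ← mul_sum, sum_comm, ← add_sum_erase univ _ (mem_univ (∅ : Finset (Fin k))), mul_add]
      congr 1
      · simp
      · congr 1
        refine sum_congr rfl fun I _ => ?_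
        rw [mul_sum]
        refine sum_congr rfl fun P _ => ?_
        rw [prod_mul_distrib]
    have hScard : (S.card : ℝ) = (S0.card : ℝ) + (S1.card : ℝ) := by
      have := hsplit (fun _ => (1 : ℝ))
      simpa using this
    have hmain : |(1 / 2 : ℝ) ^ k * ∑ I ∈ (univ : Finset (Finset (Fin k))).erase ∅,
          (∏ i ∈ I, δ i) * ∑ P ∈ S1, ∏ i ∈ I, F (val i (e i) P)| ≤ X * L ^ (ε / 2) + 3 * X := by
      have hnn : 0 ≤ X * L ^ (ε / 2) + 3 * X := by positivity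
      rw [abs_mul, abs_of_nonneg (by positivity : (0 : ℝ) ≤ (1 / 2) ^ k)]
      have h1 : |∑ I ∈ (univ : Finset (Finset (Fin k))).erase ∅,
          (∏ i ∈ I, δ i) * ∑ P ∈ S1, ∏ i ∈ I, F (val i (e i) P)| ≤ 2 ^ k * (X * L ^ (ε / 2) + 3 * X) := by
        refine (abs_sum_le_sum_abs _ _).trans ?_
        have h2 : ∀ I ∈ (univ : Finset (Finset (Fin k))).erase ∅,
            |(∏ i ∈ I, δ i) * ∑ P ∈ S1, ∏ i ∈ I, F (val i (e i) P)| ≤ X * L ^ (ε / 2) + 3 * X := by
          intro I hI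
          rw [mem_erase] at hI
          rw [abs_mul]
          have h3 : |∏ i ∈ I, δ i| ≤ 1 := prod_abs_le_one _ _ fun i _ => by rcases hδ i with h | h <;> rw [h] <;> simp
          calc |∏ i ∈ I, δ i| * |∑ P ∈ S1, ∏ i ∈ I, F (val i (e i) P)| ≤ 1 * (X * L ^ (ε / 2) + 3 * X) :=
                mul_le_mul h3 (hS1sum I (nonempty_of_ne_empty hI.1)) (abs_nonneg _) zero_le_one
            _ = _ := one_mul _
        refine (sum_le_sum h2).trans ?_
        rw [sum_const, nsmul_eq_mul]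
        apply mul_le_mul_of_nonneg_right _ hnn
        have h3 : ((univ : Finset (Finset (Fin k))).erase ∅).card ≤ 2 ^ k := by
          refine (card_le_card (erase_subset _ _)).trans (le_of_eq ?_)
          rw [card_univ, Fintype.card_finset, Fintype.card_fin]
        exact_mod_cast h3
      calc (1 / 2 : ℝ) ^ k * _ ≤ (1 / 2 : ℝ) ^ k * (2 ^ k * (X * L ^ (ε / 2) + 3 * X)) :=
            mul_le_mul_of_nonneg_left h1 (by positivity)
        _ = ((1 / 2 : ℝ) * 2) ^ k * (X * L ^ (ε / 2) + 3 * X) := by rw [mul_pow]; ring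
        _ = _ := by norm_num
    have hS0c : |∑ P ∈ S0, (if (∀ i, F (val i (e i) P) = δ i) then (1 : ℝ) else 0)| ≤ 3 * X := by
      refine (abs_sum_le_sum_abs _ _).trans ?_
      have h1 : ∀ P ∈ S0, |(if (∀ i, F (val i (e i) P) = δ i) then (1 : ℝ) else 0)| ≤ 1 := by
        intro P _
        split_ifs <;> simp
      refine (sum_le_sum h1).trans ?_
      rw [sum_const, nsmul_eq_mul, mul_one]
      exact hcol
    have h2k : |(1 / 2 : ℝ) ^ k * (S0.card : ℝ)| ≤ 3 * X := by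
      rw [abs_of_nonneg (by positivity)]
      have h1 : (1 / 2 : ℝ) ^ k ≤ 1 := pow_le_one₀ (by norm_num) (by norm_num)
      have h2 : (0 : ℝ) ≤ S0.card := Nat.cast_nonneg _
      nlinarith
    rw [hcount, hS1c, hScard]
    have efin : ∑ P ∈ S0, (if (∀ i, F (val i (e i) P) = δ i) then (1 : ℝ) else 0) +
        ((1 / 2) ^ k * (S1.card : ℝ) + (1 / 2) ^ k * ∑ I ∈ (univ : Finset (Finset (Fin k))).erase ∅,
          (∏ i ∈ I, δ i) * ∑ P ∈ S1, ∏ i ∈ I, F (val i (e i) P)) - (1 / 2) ^ k * ((S0.card : ℝ) + (S1.card : ℝ)) =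
        ∑ P ∈ S0, (if (∀ i, F (val i (e i) P) = δ i) then (1 : ℝ) else 0) +
        ((1 / 2) ^ k * ∑ I ∈ (univ : Finset (Finset (Fin k))).erase ∅,
          (∏ i ∈ I, δ i) * ∑ P ∈ S1, ∏ i ∈ I, F (val i (e i) P)) - (1 / 2) ^ k * (S0.card : ℝ) := by ring
    rw [efin]
    refine (abs_sub _ _).trans ((add_le_add ((abs_add_le _ _).trans (add_le_add hS0c hmain)) h2k).trans ?_)
    have hLL : L ^ ε = L ^ (ε / 2) * L ^ (ε / 2) := by rw [← Real.rpow_add hL0]; congr 1; ring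
    rw [hLL]
    have hp : (0 : ℝ) < L ^ (ε / 2) := by positivity
    have h9 : 10 * (X * L ^ (ε / 2)) ≤ X * (L ^ (ε / 2) * L ^ (ε / 2)) := by
      have h3 : 0 ≤ (X : ℝ) * L ^ (ε / 2) := by positivity
      nlinarith
    have h10 : (X : ℝ) ≤ X * L ^ (ε / 2) := by
      have : (1 : ℝ) ≤ L ^ (ε / 2) := Real.one_le_rpow hL1 (by positivity)
      nlinarith
    linarith

end Pool.Agent.U708.BF
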