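import Mathlib
import Pool.Agent.U708.BF.Pattern

/-!
# Project BF: binary forms, and the families `g + q ℓ` with a random linear form `ℓ`
-/

set_option autoImplicit false

namespace Pool.Agent.U708.BF

open Finset Filter
open Pool.Agent.TP975.RP
open Pool.Agent.TP975.LR

/-- the binary form with the coefficients `c` at the vector `P` -/
def form {d : ℕ} (c : Fin (d + 1) → ℤ) (P : ℤ × ℤ) : ℤ := ∑ i : Fin (d + 1), c i * P.1 ^ (i : ℕ) * P.2 ^ (d - (i : ℕ))

lemma form_add {d : ℕ} (a b : Fin (d + 1) → ℤ) (P : ℤ × ℤ) : form (a + b) P = form a P + form b P := by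
  unfold form
  rw [← sum_add_distrib]
  refine sum_congr rfl fun i _ => ?_
  rw [Pi.add_apply]; ring

lemma form_smul {d : ℕ} (t : ℤ) (a : Fin (d + 1) → ℤ) (P : ℤ × ℤ) : form (t • a) P = t * form a P := by
  unfold form
  rw [mul_sum]
  refine sum_congr rfl fun i _ => ?_
  rw [Pi.smul_apply, smul_eq_mul]; ring

lemma form_single {d : ℕ} (j : Fin (d + 1)) (v : ℤ) (P : ℤ × ℤ) :
    form (Pi.single j v) P = v * P.1 ^ (j : ℕ) * P.2 ^ (d - (j : ℕ)) := by
  unfold form
  rw [sum_eq_single j]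
  · rw [Pi.single_eq_same]
  · intro i _ hi
    rw [Pi.single_eq_of_ne hi]; ring
  · intro h
    exact absurd (mem_univ j) h

/-- the coefficient vector of `(y' U - x' V) U^(d-1)` -/
noncomputable def mv (d : ℕ) (P' : ℤ × ℤ) : Fin (d + 1) → ℤ :=
  Pi.single (Fin.last d) P'.2 + Pi.single (⟨d - 1, by omega⟩ : Fin (d + 1)) (-P'.1)

lemma form_mv (d : ℕ) (hd : 1 ≤ d) (P P' : ℤ × ℤ) : form (mv d P') P = P.1 ^ (d - 1) * (P.1 * P'.2 - P'.1 * P.2) := by
  unfold mv
  rw [form_add, form_single, form_single]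
  obtain ⟨e, rfl⟩ : ∃ e, d = e + 1 := ⟨d - 1, by omega⟩
  have e1 : e + 1 - e = 1 := by omega
  simp only [Fin.val_last, Nat.add_sub_cancel, Nat.sub_self, pow_zero, mul_one, e1, pow_one]
  rw [pow_succ]; ring

lemma mv_bd (d : ℕ) (hd : 1 ≤ d) (P' : ℤ × ℤ) (B : ℝ) (h1 : |(P'.1 : ℝ)| ≤ B) (h2 : |(P'.2 : ℝ)| ≤ B) (c : Fin (d + 1)) :
    |(mv d P' c : ℝ)| ≤ B := by
  have hB : 0 ≤ B := (abs_nonneg _).trans h1
  unfold mv
  rw [Pi.add_apply]
  by_cases hc : c = Fin.last d
  · have hne : c ≠ (⟨d - 1, by omega⟩ : Fin (d + 1)) := by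
      rw [hc]
      intro h
      have := congrArg Fin.val h
      simp only [Fin.val_last] at this
      omega
    rw [Pi.single_eq_of_ne hne, hc, Pi.single_eq_same, add_zero]
    exact h2
  · rw [Pi.single_eq_of_ne hc, zero_add]
    by_cases hc' : c = (⟨d - 1, by omega⟩ : Fin (d + 1))
    · rw [hc', Pi.single_eq_same]
      push_cast
      rw [abs_neg]
      exact h1
    · rw [Pi.single_eq_of_ne hc']
      simpa using hB

lemma form_bd {d : ℕ} (a : Fin (d + 1) → ℤ) (P : ℤ × ℤ) (B T : ℝ) (hB : ∀ c, |(a c : ℝ)| ≤ B) (h1 : |(P.1 : ℝ)| ≤ T)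
    (h2 : |(P.2 : ℝ)| ≤ T) : |(form a P : ℝ)| ≤ (d + 1) * (B * T ^ d) := by
  have hB0 : 0 ≤ B := (abs_nonneg _).trans (hB 0)
  have hT0 : 0 ≤ T := (abs_nonneg _).trans h1
  unfold form
  push_cast
  refine (abs_sum_le_sum_abs _ _).trans ?_
  calc ∑ i : Fin (d + 1), |(a i : ℝ) * (P.1 : ℝ) ^ (i : ℕ) * (P.2 : ℝ) ^ (d - (i : ℕ))| ≤ ∑ i : Fin (d + 1), B * T ^ d := by
        refine sum_le_sum fun i _ => ?_
        rw [abs_mul, abs_mul, abs_pow, abs_pow]
        have e1 : T ^ d = T ^ (i : ℕ) * T ^ (d - (i : ℕ)) := by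
          rw [← pow_add]; congr 1; have := i.2; omega
        rw [e1, ← mul_assoc]
        have h3 : |(P.1 : ℝ)| ^ (i : ℕ) ≤ T ^ (i : ℕ) := pow_le_pow_left₀ (abs_nonneg _) h1 _
        have h4 : |(P.2 : ℝ)| ^ (d - (i : ℕ)) ≤ T ^ (d - (i : ℕ)) := pow_le_pow_left₀ (abs_nonneg _) h2 _
        exact mul_le_mul (mul_le_mul (hB i) h3 (by positivity) hB0) h4 (by positivity) (by positivity)
    _ = _ := by simp

/-- the binary forms of degree `d` -/
lemma fam_form (d A : ℕ) (hd : 1 ≤ d) : ∃ H0 : ℕ, ∀ H : ℕ, H0 ≤ H → Fam d H (A * (d + 1) + 1) A form := by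
  obtain ⟨H0, hH0⟩ := eventually_atTop.1 (ev_log (2 * ((d : ℝ) + 1)))
  refine ⟨H0, fun H hH => ?_⟩
  have hL := hH0 H hH
  set L := Real.log H with hLdef
  have hd0 : (0 : ℝ) ≤ d := Nat.cast_nonneg d
  have hL1 : 1 ≤ L := by linarith
  have hL0 : 0 < L := by linarith
  constructor
  · intro P P' h1 h2 h3 h4 hP hP' hpar
    refine ⟨mv d P', P.1 ^ (d - 1) * (P.1 * P'.2 - P'.1 * P.2), ?_, ?_, ?_⟩
    · exact mul_ne_zero (pow_ne_zero _ hP) (sub_ne_zero.2 hpar)
    · intro c
      refine (mv_bd d hd P' (L ^ A) h3 h4 c).trans ?_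
      apply pow_le_pow_right₀ hL1
      nlinarith
    · intro a t
      rw [form_add, form_add, form_smul, form_smul, form_mv d hd, form_mv d hd, sub_self, mul_zero, mul_zero, add_zero]
      exact ⟨rfl, rfl⟩
  · intro P h1 h2 a ha
    have h3 := form_bd a P (2 * H) (L ^ A) (fun c => by
      have := ha c
      have h2 : ((|a c| : ℤ) : ℝ) ≤ ((2 * H : ℤ) : ℝ) := by exact_mod_cast this
      push_cast at h2
      exact h2) h1 h2
    refine h3.trans ?_
    have hH0' : (0 : ℝ) ≤ H := Nat.cast_nonneg H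
    have h5 : (L ^ A) ^ d ≤ L ^ (A * (d + 1)) := by
      rw [← pow_mul]
      apply pow_le_pow_right₀ hL1
      nlinarith
    calc ((d : ℝ) + 1) * (2 * H * (L ^ A) ^ d) = H * ((2 * ((d : ℝ) + 1)) * (L ^ A) ^ d) := by ring
      _ ≤ H * (L * L ^ (A * (d + 1))) := by
          apply mul_le_mul_of_nonneg_left _ hH0'
          exact mul_le_mul hL h5 (by positivity) hL0.le
      _ = _ := by rw [pow_succ]; ring

lemma det_form (d : ℕ) : Det d form := by
  refine ⟨Fin.last d, fun P hP a t t' h => ?_⟩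
  have e1 : ∀ t, form (Function.update a (Fin.last d) t) P = t * P.1 ^ d + form (Function.update a (Fin.last d) 0) P := by
    intro t
    have : Function.update a (Fin.last d) t = Pi.single (Fin.last d) t + Function.update a (Fin.last d) 0 := by
      funext c
      rw [Pi.add_apply]
      by_cases hc : c = Fin.last d
      · rw [hc, Function.update_self, Function.update_self, Pi.single_eq_same, add_zero]
      · rw [Function.update_of_ne hc, Function.update_of_ne hc, Pi.single_eq_of_ne hc, zero_add]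
    rw [this, form_add, form_single]
    simp
  rw [e1 t, e1 t'] at h
  have h2 : t * P.1 ^ d = t' * P.1 ^ d := by linarith
  exact mul_right_cancel₀ (pow_ne_zero _ hP) h2

/-- the value of `g + q ℓ`, `ℓ` the linear form with the coefficients `c` -/
def lin (g q : ℤ × ℤ → ℤ) (c : Fin (1 + 1) → ℤ) (P : ℤ × ℤ) : ℤ := g P + q P * form c P

lemma fam_lin (K A : ℕ) : ∃ H0 : ℕ, ∀ H : ℕ, H0 ≤ H → ∀ g q : ℤ × ℤ → ℤ,
    (∀ P : ℤ × ℤ, |(P.1 : ℝ)| ≤ Real.log H ^ A → |(P.2 : ℝ)| ≤ Real.log H ^ A →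
      |(g P : ℝ)| ≤ H * Real.log H ^ K ∧ |(q P : ℝ)| ≤ Real.log H ^ K ∧ (P.1 ≠ 0 → q P ≠ 0)) →
    Fam 1 H (K + A + 1) A (lin g q) := by
  obtain ⟨H0, hH0⟩ := eventually_atTop.1 (ev_log 8)
  refine ⟨H0, fun H hH g q hgq => ?_⟩
  have hL := hH0 H hH
  set L := Real.log H with hLdef
  have hL1 : 1 ≤ L := by linarith
  have hL0 : 0 < L := by linarith
  constructor
  · intro P P' h1 h2 h3 h4 hP hP' hpar
    refine ⟨mv 1 P', q P * (P.1 * P'.2 - P'.1 * P.2), ?_, ?_, ?_⟩
    · exact mul_ne_zero ((hgq P h1 h2).2.2 hP) (sub_ne_zero.2 hpar)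
    · intro c
      refine (mv_bd 1 le_rfl P' (L ^ A) h3 h4 c).trans ?_
      apply pow_le_pow_right₀ hL1
      omega
    · intro a t
      unfold lin
      rw [form_add, form_add, form_smul, form_smul, form_mv 1 le_rfl, form_mv 1 le_rfl, sub_self, mul_zero, mul_zero, add_zero,
        Nat.sub_self, pow_zero, one_mul]
      exact ⟨by ring, rfl⟩
  · intro P h1 h2 a ha
    have h3 := form_bd a P (2 * H) (L ^ A) (fun c => by
      have := ha c
      have h2 : ((|a c| : ℤ) : ℝ) ≤ ((2 * H : ℤ) : ℝ) := by exact_mod_cast this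
      push_cast at h2
      exact h2) h1 h2
    obtain ⟨h4, h5, -⟩ := hgq P h1 h2
    unfold lin
    push_cast
    refine (abs_add_le _ _).trans ?_
    rw [abs_mul]
    have hH0' : (0 : ℝ) ≤ H := Nat.cast_nonneg H
    push_cast at h3
    rw [pow_one] at h3
    have h6 : |(q P : ℝ)| * |(form a P : ℝ)| ≤ L ^ K * ((1 + 1) * (2 * H * L ^ A)) :=
      mul_le_mul h5 h3 (abs_nonneg _) (by positivity)
    have hKA : L ^ K ≤ L ^ (K + A) := pow_le_pow_right₀ hL1 (by omega)
    calc |(g P : ℝ)| + |(q P : ℝ)| * |(form a P : ℝ)| ≤ H * L ^ K + L ^ K * ((1 + 1) * (2 * H * L ^ A)) := add_le_add h4 h6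
      _ = H * L ^ K + 4 * (H * L ^ (K + A)) := by rw [pow_add]; ring
      _ ≤ H * L ^ (K + A) + 4 * (H * L ^ (K + A)) := by
          have := mul_le_mul_of_nonneg_left hKA hH0'
          linarith
      _ ≤ L * (H * L ^ (K + A)) := by
          have : 0 ≤ H * L ^ (K + A) := by positivity
          nlinarith
      _ = _ := by rw [pow_succ (n := K + A)]; ring

lemma det_lin (g q : ℤ × ℤ → ℤ) (hq : ∀ P : ℤ × ℤ, P.1 ≠ 0 → q P ≠ 0) : Det 1 (lin g q) := by
  refine ⟨Fin.last 1, fun P hP a t t' h => ?_⟩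
  unfold lin at h
  have h2 : q P * form (Function.update a (Fin.last 1) t) P = q P * form (Function.update a (Fin.last 1) t') P := by linarith
  have h3 := mul_left_cancel₀ (hq P hP) h2
  have e1 : ∀ t, form (Function.update a (Fin.last 1) t) P = t * P.1 ^ 1 + form (Function.update a (Fin.last 1) 0) P := by
    intro t
    have : Function.update a (Fin.last 1) t = Pi.single (Fin.last 1) t + Function.update a (Fin.last 1) 0 := by
      funext c
      rw [Pi.add_apply]
      by_cases hc : c = Fin.last 1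
      · rw [hc, Function.update_self, Function.update_self, Pi.single_eq_same, add_zero]
      · rw [Function.update_of_ne hc, Function.update_of_ne hc, Pi.single_eq_of_ne hc, zero_add]
    rw [this, form_add, form_single]
    simp
  rw [e1 t, e1 t'] at h3
  have h4 : t * P.1 ^ 1 = t' * P.1 ^ 1 := by linarith
  exact mul_right_cancel₀ (pow_ne_zero _ hP) h4

end Pool.Agent.U708.BF
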